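import Pool.Agent.W910.MR.MinStm

/-!
# The least model that contains the ground model and the generic filter: the proof
-/

set_option autoImplicit false

namespace Pool.Agent.W910.MR.T_MIN

open Pool.Agent.W868 Pool.Agent.W868.PName Pool.Agent.W910.MR
open ZFSet (pair)

section code

variable {P : Type}

/-- The code of a name: a set of the universe. -/
noncomputable def code : PName P → ZFSet.{0}
  | .mk _ x c => ZFSet.range (fun j => pair (code (x j)) (cd (c j)))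

theorem mem_code {x : PName P} {z : ZFSet.{0}} :
    z ∈ code x ↔ ∃ y c, El x y c ∧ pair (code y) (cd c) = z := by
  cases x with
  | mk ι x c =>
    rw [code, ZFSet.mem_range]
    constructor
    · rintro ⟨j, rfl⟩
      exact ⟨x j, c j, ⟨j, rfl, rfl⟩, rfl⟩
    · rintro ⟨_, _, ⟨j, rfl, rfl⟩, rfl⟩
      exact ⟨j, rfl⟩

theorem cd_injective : Function.Injective (cd : P → ZFSet.{0}) := fun _ _ h =>
  Ordinal.typein_injective WellOrderingRel (Ordinal.toZFSet_injective h)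

theorem cd_mem_Pz (p : P) : cd p ∈ Pz P :=
  Ordinal.toZFSet_mem_toZFSet_iff.2 (Ordinal.typein_lt_type _ p)

end code

variable {P : Type} [Preorder P] [OrderTop P]

section rules

open Classical

noncomputable def rC1 : Rule P := fun q => match q with
  | ⟨_, .mem s _, v, p⟩ => (check (code (tv v s)), p)
  | q => (emp, q.p)

noncomputable def rC2 : Rule P := fun q => match q with
  | ⟨_, .mem s t, v, p⟩ =>
    if h : ∃ y c, El (tv v s) y c ∧ check (pair (code y) (cd c)) = tv v t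
    then (h.choose, p) else (emp, p)
  | q => (emp, q.p)

noncomputable def rC3 : Rule P := fun q => match q with
  | ⟨_, .mem s t, v, p⟩ =>
    if h : ∃ c, El (tv v s) (tv v t) c ∧ p ≤ c
    then (check (cd h.choose), p) else (emp, p)
  | q => (emp, q.p)

end rules

section closure

variable {π : Pkg P}
  (hcl : ∀ ρ ∈ ({rC1, rC2, rC3} : Set (Rule P)), ∀ q : Query P, q.In π.N π.C →
    (ρ q).1 ∈ π.N ∧ (ρ q).2 ∈ π.C)

include hcl

theorem code_Z {x : PName P} (hx : x ∈ π.N) : code x ∈ π.Z :=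
  (hcl rC1 (by simp) _ (query2 hx hx (π.gC 0))).1

theorem code_wit {x : PName P} {z : ZFSet.{0}} (hx : x ∈ π.N) (hz : z ∈ π.Z) (h : z ∈ code x) :
    ∃ y ∈ π.N, ∃ c, El x y c ∧ pair (code y) (cd c) = z := by
  have h1 := (hcl rC2 (by simp) _ (query2 hx hz (π.gC 0))).1
  have h2 : ∃ y c, El (tv (Fin.elim0 : Fin 0 → PName P) (Sum.inr x)) y c ∧
      check (pair (code y) (cd c)) =
        tv (Fin.elim0 : Fin 0 → PName P) (Sum.inr (check z : PName P)) := by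
    obtain ⟨y, c, hc, hyc⟩ := mem_code.1 h
    exact ⟨y, c, hc, congrArg check hyc⟩
  unfold rC2 at h1
  simp only [dif_pos h2] at h1
  obtain ⟨c, hc, he⟩ := h2.choose_spec
  exact ⟨_, h1, c, hc, check_injective he⟩

theorem cond_wit {x y : PName P} {c : P} {n : ℕ} (hx : x ∈ π.N) (hy : y ∈ π.N)
    (h : El x y c) (hn : π.g n ≤ c) : ∃ c', El x y c' ∧ π.g n ≤ c' ∧ cd c' ∈ π.Z := by
  have h1 := (hcl rC3 (by simp) _ (query2 hx hy (π.gC n))).1
  have h2 : ∃ c, El (tv (Fin.elim0 : Fin 0 → PName P) (Sum.inr x))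
      (tv (Fin.elim0 : Fin 0 → PName P) (Sum.inr y)) c ∧ π.g n ≤ c := ⟨c, h, hn⟩
  unfold rC3 at h1
  simp only [dif_pos h2] at h1
  exact ⟨_, h2.choose_spec.1, h2.choose_spec.2, h1⟩

end closure

/-! ### The evaluation -/

/-- The predecessors. -/
noncomputable def pr (G z : ZFSet.{0}) : ZFSet.{0} := im fs (ZFSet.sep (fun q => sn q ∈ G) z)

theorem mem_pr {G z u : ZFSet.{0}} : u ∈ pr G z ↔ ∃ q ∈ z, sn q ∈ G ∧ u = fs q := by
  rw [pr, mem_im]
  constructor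
  · rintro ⟨q, hq, rfl⟩
    obtain ⟨h1, h2⟩ := ZFSet.mem_sep.1 hq
    exact ⟨q, h1, h2, rfl⟩
  · rintro ⟨q, h1, h2, rfl⟩
    exact ⟨q, ZFSet.mem_sep.2 ⟨h1, h2⟩, rfl⟩

theorem rank_fs (q : ZFSet.{0}) : ZFSet.rank (fs q) ≤ ZFSet.rank q := by
  by_cases h : ∃ a b, q = pair a b
  · obtain ⟨a, b, rfl⟩ := h
    rw [fs_pair]
    have h1 : a ∈ ({a} : ZFSet.{0}) := ZFSet.mem_singleton.2 rfl
    have h2 : ({a} : ZFSet.{0}) ∈ pair a b := by
      rw [pair]
      exact ZFSet.mem_pair.2 (Or.inl rfl)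
    exact ((ZFSet.rank_lt_of_mem h1).trans (ZFSet.rank_lt_of_mem h2)).le
  · rw [fs, dif_neg h, ZFSet.rank_empty]
    exact zero_le

theorem pr_wf (G : ZFSet.{0}) : WellFounded fun u z => u ∈ pr G z := by
  refine Subrelation.wf (r := InvImage (· < ·) ZFSet.rank) ?_ (InvImage.wf _ Ordinal.lt_wf)
  intro u z h
  obtain ⟨q, hq, -, rfl⟩ := mem_pr.1 h
  exact (rank_fs q).trans_lt (ZFSet.rank_lt_of_mem hq)

/-- The evaluation of a code. -/
noncomputable def ev (G : ZFSet.{0}) : ZFSet.{0} → ZFSet.{0} :=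
  wfF (pr G) (pr_wf G) fun _ g => im sn g

theorem mem_ev {G z y : ZFSet.{0}} : y ∈ ev G z ↔ ∃ u ∈ pr G z, y = ev G u := by
  rw [ev, wfF_eq, ← ev, mem_im]
  constructor
  · rintro ⟨q, hq, rfl⟩
    obtain ⟨u, hu, rfl⟩ := mem_gr.1 hq
    exact ⟨u, hu, sn_pair _ _⟩
  · rintro ⟨u, hu, rfl⟩
    exact ⟨_, mem_gr.2 ⟨u, hu, rfl⟩, (sn_pair _ _).symm⟩

theorem ev_mem {M : Set ZFSet.{0}} (hM : IsZF M) {G z : ZFSet.{0}} (hG : G ∈ M) (hz : z ∈ M) :
    ev G z ∈ M := by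
  have h1 : DfnF M M fun w : Fin 1 → ZFSet.{0} => pr G (w 0) :=
    hM.im' (h := fun p _ => fs p)
      (hM.sep' (Q := fun q _ => sn q ∈ G) (DfnF.proj 0)
        (Dfn.mem (hM.sn' (DfnF.proj 0)) (DfnF.const hG)))
      (hM.fs' (DfnF.proj 0))
  have h2 : DfnF M M fun w : Fin 2 → ZFSet.{0} => (fun _ g => im sn g) (w 0) (w 1) :=
    hM.im' (h := fun p _ => sn p) (DfnF.proj 1) (hM.sn' (DfnF.proj 0))
  have h3 := hM.wfrec (pr_wf G) h1 h2 (F := ev G) fun z => wfF_eq _ _ _ z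
  exact h3.1 (fun _ => z) fun _ => hz

section main

variable {π : Pkg P}
  (hcl : ∀ ρ ∈ ({rC1, rC2, rC3} : Set (Rule P)), ∀ q : Query P, q.In π.N π.C →
    (ρ q).1 ∈ π.N ∧ (ρ q).2 ∈ π.C)

include hcl

theorem ev_code (x : PName P) (hx : x ∈ π.N) : ev (Gset π) (π.hat (code x)) = π.val x := by
  induction x using el_ind with
  | h x ih =>
    have hxZ := code_Z hcl hx
    ext w
    rw [mem_ev]
    constructor
    · rintro ⟨u, hu, rfl⟩
      obtain ⟨q, hq, hG, rfl⟩ := mem_pr.1 hu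
      obtain ⟨z, hz, hzZ, rfl⟩ := π.mem_hat.1 hq
      obtain ⟨y, hy, c, hc, rfl⟩ := code_wit hcl hx hzZ hz
      obtain ⟨h1, h2⟩ := π.of_pair_Z hzZ
      rw [π.hat_pair h1 h2, sn_pair] at hG
      rw [π.hat_pair h1 h2, fs_pair, ih y c hc hy]
      obtain ⟨-, p, hp, he, n, hn⟩ := ZFSet.mem_sep.1 hG
      have h3 := cd_injective ((π.hat_inj hp h2).1 he)
      subst h3
      exact π.val_mem_val hy hc hn
    · intro h
      obtain ⟨y, hy, c, hc, ⟨n, hn⟩, rfl⟩ := π.mem_val.1 h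
      obtain ⟨c', hc', hn', hZ⟩ := cond_wit hcl hx hy hc hn
      have hyZ := code_Z hcl hy
      refine ⟨π.hat (code y), mem_pr.2 ⟨π.hat (pair (code y) (cd c')), ?_, ?_, ?_⟩,
        (ih y c hc hy).symm⟩
      · exact π.mem_hat.2 ⟨_, mem_code.2 ⟨y, c', hc', rfl⟩, π.pair_mem_Z hyZ hZ, rfl⟩
      · rw [π.hat_pair hyZ hZ, sn_pair]
        exact ZFSet.mem_sep.2 ⟨π.mem_hat.2 ⟨_, cd_mem_Pz c', hZ, rfl⟩, c', hZ, rfl, n, hn'⟩
      · rw [π.hat_pair hyZ hZ, fs_pair]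

end main

theorem main : S_MIN := by
  intro P _ _ A hA p₀
  obtain ⟨π, h1, h2, h3⟩ := exists_pkg ({rC1, rC2, rC3} : Set (Rule P))
    (Set.Finite.countable (Set.toFinite _)) (A ∪ {check (Pz P)})
    (hA.union (Set.countable_singleton _)) p₀
  refine ⟨π, fun x hx => h1 (Or.inl hx), h2, h1 (Or.inr rfl), ?_⟩
  rintro N hN hV hG _ ⟨x, hx, rfl⟩
  rw [← ev_code h3 x hx]
  exact ev_mem hN hG (hV (π.of_hat_mem_V (code_Z h3 hx)))

end Pool.Agent.W910.MR.T_MIN
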