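import Pool.Agent.W868.GDefs

/-!
# Reals added by a subset of a singular cardinal: the definitions

Everything takes place inside the type `ZFSet.{0}` of all sets. The transitive models of ZFC, the
formulas, the cardinals of a model and the generalized continuum hypothesis in a model are those
of `Pool.Agent.W868.Defs` and `Pool.Agent.W868.GDefs`.
-/

set_option autoImplicit false

namespace Pool.Agent.W910.MR

open ZFSet (pair)
open Pool.Agent.W868
open Cardinal

/-- `U` is a nonprincipal ultrafilter on the uncountable set `K`, and the intersection of fewer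
than `#K` sets of `U` is in `U`: the cardinal `#K` is measurable. -/
structure Measures (K : Type) (U : Ultrafilter K) : Prop where
  uncountable : ℵ₀ < #K
  nonprincipal : ∀ a : K, ({a} : Set K) ∉ U
  complete : ∀ (J : Type) (X : J → Set K), #J < #K → (∀ j, X j ∈ U) → (⋂ j, X j) ∈ U

/-- `M` is a transitive model of pairing, union and the separation scheme for all formulas with
parameters from `M`. -/
structure IsWeakModel (M : Set ZFSet.{0}) : Prop where
  trans : ∀ x ∈ M, ∀ y ∈ x, y ∈ M
  pairing : ∀ x ∈ M, ∀ y ∈ M, ({x, y} : ZFSet.{0}) ∈ M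
  union : ∀ x ∈ M, ZFSet.sUnion x ∈ M
  separation : ∀ φ : Fml ZFSet.{0} 1, φ.Over M → ∀ x ∈ M, ∃ y ∈ M, ∀ z,
    z ∈ y ↔ z ∈ x ∧ Sat M id φ ![z]

/-- `H(lam⁺)` in the sense of `V`: the elements `x` of `V` that are an element of a transitive set
`t` of `V` which has an injection into `lam` in `V` (for infinite `lam` this says that the
transitive closure of `x` has in `V` cardinality at most `lam`). -/
def HPlus (V : Set ZFSet.{0}) (lam : ZFSet.{0}) : Set ZFSet.{0} :=
  {x | ∃ t ∈ V, x ∈ t ∧ (∀ y ∈ t, ∀ z ∈ y, z ∈ t) ∧ ∃ f ∈ V, IsInj t lam f}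

/-- The intersection of all transitive models `M` of pairing, union and separation with
`H ⊆ M` and `A ∈ M`. -/
def Adjoin (H : Set ZFSet.{0}) (A : ZFSet.{0}) : Set ZFSet.{0} :=
  {x | ∀ M : Set ZFSet.{0}, IsWeakModel M → H ⊆ M → A ∈ M → x ∈ M}

/-- `f` is a function from `α` to `lam` whose values are unbounded in `lam`. -/
def IsCofinalMap (α lam f : ZFSet.{0}) : Prop :=
  ZFSet.IsFunc α lam f ∧ ∀ β ∈ lam, ∃ γ δ, pair γ δ ∈ f ∧ β ∈ δ

/-- In `M`, the cardinal `lam` is singular and its cofinality is uncountable. -/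
def IsSingUncof (M : Set ZFSet.{0}) (lam : ZFSet.{0}) : Prop :=
  IsInfCard M lam ∧ (∃ α ∈ lam, ∃ f ∈ M, IsCofinalMap α lam f) ∧
    ¬ ∃ f ∈ M, IsCofinalMap ZFSet.omega lam f

end Pool.Agent.W910.MR
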