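import Pool.Agent.W910.MR.Ground

/-!
# A large family of functions from a measurable cardinal to a singular cardinal
-/

set_option autoImplicit false

namespace Pool.Agent.W910.MR

open Cardinal Set
open scoped Ordinal
open Pool.Agent.W868 (Ty el el_mem el_injective exists_el Coh)

/-- Measures are transferred by bijections. -/
theorem Measures.congr {K K' : Type} {U : Ultrafilter K} (hU : Measures K U) (e : K ≃ K') :
    Measures K' (U.map e) := by
  have hc : #K = #K' := Cardinal.mk_congr e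
  refine ⟨hc ▸ hU.uncountable, ?_, ?_⟩
  · intro a ha
    rw [Ultrafilter.mem_map] at ha
    apply hU.nonprincipal (e.symm a)
    convert ha using 1
    ext k
    simp [Equiv.eq_symm_apply]
  · intro J X hJ hX
    rw [Ultrafilter.mem_map, Set.preimage_iInter]
    exact hU.complete J _ (by rw [hc]; exact hJ) fun j => Ultrafilter.mem_map.1 (hX j)

theorem co_small {K : Type} {U : Ultrafilter K} (hU : Measures K U) {S : Set K} (h : #S < #K) :
    Sᶜ ∈ U := by
  have h1 := hU.complete S (fun s => {s.1}ᶜ) h fun s => by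
    rw [Ultrafilter.compl_mem_iff_notMem]
    exact hU.nonprincipal _
  refine Filter.mem_of_superset h1 fun k hk hkS => ?_
  exact mem_iInter.1 hk ⟨k, hkS⟩ rfl

variable {κ : Cardinal.{0}} {U : Ultrafilter (Ty (Ca κ))}

theorem card_ty_Ca (c : Cardinal.{0}) : #(Ty (Ca c)) = c := card_Ca c

theorem el_ord {c : Cardinal.{0}} (i : Ty (Ca c)) : (el i).IsOrdinal := (mem_Ca.1 (el_mem i)).1

theorem rank_lt {c : Cardinal.{0}} (i : Ty (Ca c)) : (el i).rank < c.ord := by
  obtain ⟨a, ha, h⟩ := Ordinal.mem_toZFSet_iff.1 (el_mem i)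
  rw [← h, Ordinal.rank_toZFSet]
  exact ha

theorem exists_rank {c : Cardinal.{0}} {a : Ordinal.{0}} (ha : a < c.ord) :
    ∃ i : Ty (Ca c), (el i).rank = a := by
  have h : a.toZFSet ∈ Ca c := Ordinal.toZFSet_mem_toZFSet_iff.2 ha
  obtain ⟨i, hi⟩ := exists_el h
  exact ⟨i, by rw [hi, Ordinal.rank_toZFSet]⟩

theorem el_mem_el {c d : Cardinal.{0}} {i : Ty (Ca c)} {j : Ty (Ca d)} :
    el i ∈ el j ↔ (el i).rank < (el j).rank := by
  conv_lhs => rw [← (el_ord i).toZFSet_rank_eq, ← (el_ord j).toZFSet_rank_eq]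
  exact Ordinal.toZFSet_mem_toZFSet_iff

theorem up_mem (hU : Measures (Ty (Ca κ)) U) (i₀ : Ty (Ca κ)) :
    {i : Ty (Ca κ) | (el i₀).rank ≤ (el i).rank} ∈ U := by
  have h1 : #{i : Ty (Ca κ) | (el i).rank < (el i₀).rank} < #(Ty (Ca κ)) := by
    have h2 : #{i : Ty (Ca κ) | (el i).rank < (el i₀).rank} ≤ #(Ty (el i₀)) := by
      choose f hf using fun i : {i : Ty (Ca κ) | (el i).rank < (el i₀).rank} =>
        exists_el (el_mem_el.2 i.2)
      refine Cardinal.mk_le_of_injective (f := f) fun i j hij => ?_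
      have h3 : el i.1 = el j.1 := by rw [← hf i, ← hf j, hij]
      exact Subtype.ext (el_injective h3)
    refine lt_of_le_of_lt h2 ?_
    rw [card_ty_Ca, card_ty]
    exact (mem_Ca.1 (el_mem i₀)).2
  refine Filter.mem_of_superset (co_small hU h1) fun i hi => ?_
  have h3 : ¬ (el i).rank < (el i₀).rank := hi
  exact not_lt.1 h3

/-- The singular cardinal. -/
noncomputable def lamC (κ : Cardinal.{0}) : Cardinal.{0} := ℵ_ (κ.ord + κ.ord)

/-- A smaller cardinal. -/
noncomputable def lc (i : Ty (Ca κ)) : Cardinal.{0} := ℵ_ (κ.ord + (el i).rank)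

theorem lc_lt (i : Ty (Ca κ)) : lc i < lamC κ :=
  Cardinal.aleph_lt_aleph.2 (by simpa using rank_lt i)

theorem aleph0_le_lamC : ℵ₀ ≤ lamC κ := Cardinal.aleph0_le_aleph _

theorem le_lamC : κ ≤ lamC κ :=
  (Cardinal.le_aleph_ord κ).trans (Cardinal.aleph_le_aleph.2 (by simp))

theorem lt_lamC (hκ : ℵ₀ ≤ κ) : κ < lamC κ := by
  refine lt_of_le_of_lt (Cardinal.le_aleph_ord κ) (Cardinal.aleph_lt_aleph.2 ?_)
  have h : (0 : Ordinal.{0}) < κ.ord := (Cardinal.isSuccLimit_ord hκ).bot_lt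
  simpa using h

theorem lc_mono {i j : Ty (Ca κ)} (h : (el i).rank ≤ (el j).rank) : lc i ≤ lc j :=
  Cardinal.aleph_le_aleph.2 (by simpa using h)

theorem exists_lc (hκ : ℵ₀ ≤ κ) {x : Ordinal.{0}} (hx : x < (lamC κ).ord) :
    ∃ i : Ty (Ca κ), x < (lc i).ord := by
  have hl : Order.IsSuccLimit κ.ord := Cardinal.isSuccLimit_ord hκ
  rw [lamC, Cardinal.ord_aleph] at hx
  obtain ⟨c, hc, hxc⟩ := (Ordinal.isNormal_omega.lt_iff_exists_lt
    (Ordinal.isSuccLimit_add _ hl)).1 hx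
  obtain ⟨d, hd, hcd⟩ := (Ordinal.lt_add_iff hl.bot_lt.ne').1 hc
  obtain ⟨i, hi⟩ := exists_rank hd
  refine ⟨i, ?_⟩
  rw [lc, Cardinal.ord_aleph, hi]
  exact hxc.trans_le (Ordinal.omega_le_omega.2 hcd)

/-- A piece of the singular cardinal. -/
def Lp (i : Ty (Ca κ)) : Set (Ty (Ca (lamC κ))) := {ξ | (el ξ).rank < (lc i).ord}

theorem card_Lp (i : Ty (Ca κ)) : #(Lp i) < #(Ty (Ca (lamC κ))) := by
  have h2 : #(Lp i) ≤ #(Ty (Ca (lc i))) := by
    choose f hf using fun ξ : Lp i => exists_rank ξ.2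
    refine Cardinal.mk_le_of_injective (f := f) fun ξ η h => ?_
    have h3 : (el ξ.1).rank = (el η.1).rank := by rw [← hf ξ, ← hf η, h]
    have h4 : el ξ.1 = el η.1 := by
      rw [← (el_ord ξ.1).toZFSet_rank_eq, ← (el_ord η.1).toZFSet_rank_eq, h3]
    exact Subtype.ext (el_injective h4)
  refine lt_of_le_of_lt h2 ?_
  rw [card_ty_Ca, card_ty_Ca]
  exact lc_lt i

theorem Lp_mem (hU : Measures (Ty (Ca κ)) U) (ξ : Ty (Ca (lamC κ))) : {i | ξ ∈ Lp i} ∈ U := by
  have hκ : ℵ₀ ≤ κ := by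
    have := hU.uncountable.le
    rwa [card_ty_Ca] at this
  obtain ⟨i, hi⟩ := exists_lc hκ (rank_lt ξ)
  refine Filter.mem_of_superset (up_mem hU i) fun j hj => ?_
  exact hi.trans_le (Cardinal.ord_le_ord.2 (lc_mono hj))

/-- No function from the natural numbers is cofinal. -/
theorem exists_bound (hU : Measures (Ty (Ca κ)) U) (s : ℕ → Ty (Ca (lamC κ))) :
    ∃ b : Ty (Ca (lamC κ)), ∀ n, (el (s n)).rank < (el b).rank := by
  have h1 := hU.complete ℕ (fun n => {i | s n ∈ Lp i}) (by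
    rw [Cardinal.mk_nat]
    exact hU.uncountable) fun n => Lp_mem hU (s n)
  obtain ⟨i, hi⟩ := U.nonempty_of_mem h1
  obtain ⟨b, hb⟩ := exists_rank (Cardinal.ord_lt_ord.2 (lc_lt i))
  refine ⟨b, fun n => ?_⟩
  rw [hb]
  exact mem_iInter.1 hi n

/-- Diagonalization. -/
theorem exists_diff (hU : Measures (Ty (Ca κ)) U) {M : Type} (hM : #M ≤ lamC κ)
    (g : M → Ty (Ca κ) → Ty (Ca (lamC κ))) :
    ∃ f : Ty (Ca κ) → Ty (Ca (lamC κ)), ∀ m, {i | g m i = f i} ∉ U := by
  classical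
  rw [← card_ty_Ca (lamC κ)] at hM
  obtain ⟨e⟩ := Cardinal.le_def _ _ |>.1 hM
  have h1 : ∀ i : Ty (Ca κ), ∃ η, ∀ m, e m ∈ Lp i → g m i ≠ η := by
    intro i
    by_contra hcon
    push Not at hcon
    choose m hm hmi using hcon
    have h2 : #(Ty (Ca (lamC κ))) ≤ #(Lp i) := by
      refine Cardinal.mk_le_of_injective (f := fun η => (⟨e (m η), hm η⟩ : Lp i)) ?_
      intro η η' h
      have h3 : m η = m η' := e.injective (congrArg Subtype.val h)
      rw [← hmi η, ← hmi η', h3]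
    exact absurd (card_Lp i) (not_lt.2 h2)
  choose f hf using h1
  refine ⟨f, fun m hm => ?_⟩
  obtain ⟨i, hi1, hi2⟩ := U.nonempty_of_mem (Filter.inter_mem hm (Lp_mem hU (e m)))
  exact hf i m hi2 hi1

/-- A family of `lam⁺` functions any two of which differ almost everywhere. -/
theorem exists_family (hU : Measures (Ty (Ca κ)) U) :
    ∃ f : Ty (Ca (Order.succ (lamC κ))) → Ty (Ca κ) → Ty (Ca (lamC κ)),
      ∀ ξ η, ξ ≠ η → {i | f ξ i = f η i} ∉ U := by
  classical
  let T := Ty (Ca (Order.succ (lamC κ)))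
  let r : T → T → Prop := fun a b => (el a).rank < (el b).rank
  have hwf : WellFounded r := InvImage.wf (fun a : T => (el a).rank) wellFounded_lt
  have hsm : ∀ t : T, #{s : T // r s t} ≤ lamC κ := by
    intro t
    have h2 : #{s : T // r s t} ≤ #(Ty (el t)) := by
      choose f hf using fun s : {s : T // r s t} => exists_el (el_mem_el.2 s.2)
      refine Cardinal.mk_le_of_injective (f := f) fun i j hij => ?_
      have h3 : el i.1 = el j.1 := by rw [← hf i, ← hf j, hij]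
      exact Subtype.ext (el_injective h3)
    refine h2.trans ?_
    rw [card_ty]
    exact Order.lt_succ_iff.1 (mem_Ca.1 (el_mem t)).2
  let f : T → Ty (Ca κ) → Ty (Ca (lamC κ)) := hwf.fix fun t ih =>
    (exists_diff hU (hsm t) fun s => ih s.1 s.2).choose
  have hf : ∀ t, f t = (exists_diff hU (hsm t) fun s => f s.1).choose := fun t => hwf.fix_eq _ t
  have hlt : ∀ s t, r s t → {i | f s i = f t i} ∉ U := by
    intro s t h
    have h1 := (exists_diff hU (hsm t) fun s => f s.1).choose_spec ⟨s, h⟩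
    rw [← hf t] at h1
    exact h1
  refine ⟨f, fun ξ η hne => ?_⟩
  rcases lt_trichotomy (el ξ).rank (el η).rank with h | h | h
  · exact hlt ξ η h
  · exfalso
    apply hne
    apply el_injective
    rw [← (el_ord ξ).toZFSet_rank_eq, ← (el_ord η).toZFSet_rank_eq, h]
  · intro h1
    refine hlt η ξ h (Filter.mem_of_superset h1 fun i hi => ?_)
    exact Eq.symm hi

/-- The number of conditions. -/
theorem card_cond (gch : ∀ c : Cardinal.{0}, ℵ₀ ≤ c → (2 : Cardinal.{0}) ^ c = Order.succ c)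
    (hU : Measures (Ty (Ca κ)) U) :
    #(Pri U × Coh (Ty (Ca (lamC κ)) × ℕ)) ≤ lamC κ := by
  classical
  have hκ : ℵ₀ ≤ κ := by
    have := hU.uncountable.le
    rwa [card_ty_Ca] at this
  have hinf := hU.infinite
  have h1 : #(Pri U) ≤ lamC κ := by
    have h2 : #(Pri U) ≤ #(List (Ty (Ca κ)) × (List (Ty (Ca κ)) → Set (Ty (Ca κ)))) := by
      refine Cardinal.mk_le_of_injective (f := fun p => (p.s, p.B)) ?_
      rintro ⟨s, B, hB⟩ ⟨s', B', hB'⟩ h
      simp only [Prod.mk.injEq] at h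
      obtain ⟨rfl, rfl⟩ := h
      rfl
    refine h2.trans ?_
    rw [Cardinal.mk_prod, Cardinal.lift_id, Cardinal.lift_id, Cardinal.mk_list_eq_mk, card_ty_Ca,
      Cardinal.mk_arrow, Cardinal.lift_id, Cardinal.lift_id, Cardinal.mk_set, card_ty_Ca,
      Cardinal.mk_list_eq_mk, card_ty_Ca, ← Cardinal.power_mul, Cardinal.mul_eq_self hκ, gch κ hκ]
    refine (Cardinal.mul_le_max _ _).trans ?_
    have h3 : Order.succ κ ≤ lamC κ := Order.succ_le_of_lt (lt_lamC hκ)
    exact max_le (max_le le_lamC h3) aleph0_le_lamC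
  have h2 : #(Coh (Ty (Ca (lamC κ)) × ℕ)) ≤ lamC κ := by
    have h3 : #(Coh (Ty (Ca (lamC κ)) × ℕ)) ≤ #(Finset ((Ty (Ca (lamC κ)) × ℕ) × Bool)) :=
      Cardinal.mk_le_of_injective Subtype.val_injective
    have hinf2 : Infinite ((Ty (Ca (lamC κ)) × ℕ) × Bool) := by
      have : Infinite (Ty (Ca (lamC κ))) := by
        rw [Cardinal.infinite_iff, card_ty_Ca]
        exact aleph0_le_lamC
      infer_instance
    refine h3.trans ?_
    rw [Cardinal.mk_finset_of_infinite]
    simp only [Cardinal.mk_prod, Cardinal.lift_id, card_ty_Ca, Cardinal.mk_nat, Cardinal.mk_bool]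
    refine (Cardinal.mul_le_max _ _).trans (max_le (max_le ?_ ?_) aleph0_le_lamC)
    · refine (Cardinal.mul_le_max _ _).trans ?_
      simp [aleph0_le_lamC]
    · refine le_trans ?_ aleph0_le_lamC
      exact (Cardinal.natCast_lt_aleph0 (n := 2)).le
  rw [Cardinal.mk_prod, Cardinal.lift_id, Cardinal.lift_id]
  refine (Cardinal.mul_le_max _ _).trans (max_le (max_le h1 h2) aleph0_le_lamC)

end Pool.Agent.W910.MR
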