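import Pool.Agent.W910.MR.Pres

/-!
# Cardinals in the ground model
-/

set_option autoImplicit false
set_option linter.unreachableTactic false
set_option linter.unusedTactic false
set_option linter.unusedSectionVars false

namespace Pool.Agent.W910.MR

open ZFSet (pair)
open Cardinal
open Pool.Agent.W868
open Pool.Agent.W868.PName

variable {P : Type} [Preorder P] [OrderTop P]

theorem over_univ' {A : Type*} : {n : ℕ} → (φ : Fml A n) → φ.Over Set.univ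
  | _, .mem _ _ => ⟨fun _ _ => trivial, fun _ _ => trivial⟩
  | _, .eq _ _ => ⟨fun _ _ => trivial, fun _ _ => trivial⟩
  | _, .neg φ => over_univ' φ
  | _, .and φ ψ => ⟨over_univ' φ, over_univ' ψ⟩
  | _, .ex φ => over_univ' φ

/-- Absoluteness for the ground model. -/
theorem transfer {n : ℕ} {R : (Fin n → ZFSet.{0}) → Prop} (h : D0 R) (π : Pkg P)
    (v : Fin n → ZFSet.{0}) (hv : ∀ i, v i ∈ π.Z) : R (π.hat ∘ v) ↔ R v := by
  obtain ⟨φ, hφ⟩ := h
  have h1 := hφ π.V (fun x hx y hy => π.trans_V hx hy) (π.hat ∘ v) fun i => π.of_hat_mem_V (hv i)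
  have h2 := hφ Set.univ (fun _ _ _ _ => trivial) v fun _ => trivial
  rw [← h1, ← h2]
  have hov : (φ.map (Empty.elim : Empty → ZFSet.{0})).Over π.Z := by
    rw [over_map]
    have h3 : (Empty.elim ⁻¹' π.Z : Set Empty) = Set.univ := by
      ext x
      exact x.elim
    rw [h3]
    exact over_univ' φ
  have h3 := π.sat_V (φ.map (Empty.elim : Empty → ZFSet.{0})) hov v hv
  rw [sat_map, sat_map] at h3
  have h4 : π.hat ∘ (Empty.elim : Empty → ZFSet.{0}) = Empty.elim := funext fun x => x.elim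
  have h5 : (id : ZFSet.{0} → ZFSet.{0}) ∘ (Empty.elim : Empty → ZFSet.{0}) = Empty.elim :=
    funext fun x => x.elim
  rw [h4, h5] at h3
  exact h3

/-- The initial ordinal of a cardinal. -/
noncomputable def Ca (c : Cardinal.{0}) : ZFSet.{0} := c.ord.toZFSet

theorem card_Ca (c : Cardinal.{0}) : (Ca c).card = c := by
  rw [Ca, Ordinal.card_toZFSet, Cardinal.card_ord]

theorem ord_Ca (c : Cardinal.{0}) : (Ca c).IsOrdinal := ZFSet.isOrdinal_toZFSet _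

theorem mem_Ca {c : Cardinal.{0}} {x : ZFSet.{0}} : x ∈ Ca c ↔ x.IsOrdinal ∧ x.card < c := by
  rw [Ca, Ordinal.mem_toZFSet_iff]
  constructor
  · rintro ⟨a, ha, rfl⟩
    refine ⟨ZFSet.isOrdinal_toZFSet _, ?_⟩
    rw [Ordinal.card_toZFSet]
    exact Cardinal.lt_ord.1 ha
  · rintro ⟨h1, h2⟩
    refine ⟨x.rank, ?_, h1.toZFSet_rank_eq⟩
    rw [Cardinal.lt_ord, ← Ordinal.card_toZFSet, h1.toZFSet_rank_eq]
    exact h2

theorem Ca_mem_Ca {c d : Cardinal.{0}} : Ca c ∈ Ca d ↔ c < d := by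
  rw [mem_Ca, card_Ca]
  exact ⟨fun h => h.2, fun h => ⟨ord_Ca _, h⟩⟩

theorem Ca_aleph0 : Ca ℵ₀ = ZFSet.omega := by
  rw [Ca, Cardinal.ord_aleph0, ← omega_eq]

theorem omega_subset_Ca {c : Cardinal.{0}} (hc : ℵ₀ ≤ c) : ZFSet.omega ⊆ Ca c := by
  intro x hx
  rw [← Ca_aleph0, mem_Ca] at hx
  exact mem_Ca.2 ⟨hx.1, hx.2.trans_le hc⟩

theorem isOrdinal_of_hat (π : Pkg P) {x : ZFSet.{0}} (hx : x ∈ π.Z) (h : (π.hat x).IsOrdinal) :
    x.IsOrdinal := by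
  have h1 := transfer (D0.isOrdinal (D0v.proj (0 : Fin 1))) π ![x] (by
    intro i
    fin_cases i
    exact hx)
  exact h1.1 h

/-- `Ca c` is a cardinal of the ground model. -/
theorem isCard_hat (hP : Preserves P) (π : Pkg P) {c : Cardinal.{0}} (h : Ca c ∈ π.Z) :
    IsCard π.V (π.hat (Ca c)) := by
  refine ⟨π.of_hat_mem_V h, π.hat_isOrdinal (ord_Ca c), ?_⟩
  rintro β hβ ⟨f, hf, hinj⟩
  obtain ⟨b, hb, hbZ, rfl⟩ := π.mem_hat.1 hβ
  have h1 := card_le_of_inj_W hP π hbZ h (π.V_subset_W hf) hinj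
  rw [card_Ca] at h1
  exact absurd (mem_Ca.1 hb).2 (not_lt.2 h1)

theorem dfn_inj {S : Set ZFSet.{0}} {n : ℕ} {F G : (Fin n → ZFSet.{0}) → ZFSet.{0}}
    (hF : DfnF S Set.univ F) (hG : DfnF S Set.univ G) :
    Dfn S Set.univ fun v => ∃ f, IsInj (F v) (G v) f := by
  have hB := isBase_univ
  have h1 : Dfn S Set.univ fun v => ∃ f ∈ (Set.univ : Set ZFSet.{0}), IsInj (F v) (G v) f :=
    Dfn.ex (Q := fun f v => IsInj (F v) (G v) f) (hB.isInj' hF.tail hG.tail (DfnF.proj 0))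
  exact h1.congr fun v _ => by simp

/-- The cardinals of the ground model. -/
theorem eq_Ca (π : Pkg P) {x : ZFSet.{0}} (hx : x ∈ π.Z) (h : IsCard π.V (π.hat x)) :
    x = Ca x.card := by
  have hord := isOrdinal_of_hat π hx h.2.1
  have h1 : ¬ ∃ β, β ∈ x ∧ ∃ f, IsInj x β f := by
    intro h1
    have hB := isBase_univ
    have hd : Dfn π.Z Set.univ fun w : Fin 1 → ZFSet.{0} => w 0 ∈ x ∧ ∃ f, IsInj x (w 0) f := by
      refine Dfn.and ?_ (dfn_inj (DfnF.const' trivial hx) (DfnF.proj 0))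
      exact Dfn.mem (DfnF.proj 0) (DfnF.const' trivial hx)
    obtain ⟨β, hβZ, hβ, h2⟩ := π.exists_Z (Q := fun β => β ∈ x ∧ ∃ f, IsInj x β f) hd h1
    exact h.2.2 _ ((π.hat_mem_hat hβZ hx).2 hβ) (π.exists_inj_V hx hβZ h2)
  have h2 : ¬ Ca x.card ∈ x := fun h2 => h1 ⟨_, h2, exists_isInj (by rw [card_Ca])⟩
  have h3 : ¬ x ∈ Ca x.card := fun h3 => absurd (mem_Ca.1 h3).2 (lt_irrefl _)
  rcases ZFSet.IsOrdinal.mem_trichotomous hord (ord_Ca x.card) with h4 | h4 | h4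
  · exact absurd h4 h3
  · exact h4
  · exact absurd h4 h2

theorem isNextCard_hat (hP : Preserves P) (π : Pkg P) {c : Cardinal.{0}} (h : Ca c ∈ π.Z)
    (h' : Ca (Order.succ c) ∈ π.Z) : IsNextCard π.V (π.hat (Ca c)) (π.hat (Ca (Order.succ c))) := by
  refine ⟨isCard_hat hP π h', (π.hat_mem_hat h h').2 (Ca_mem_Ca.2 (Order.lt_succ c)), ?_⟩
  intro ν hν hc
  obtain ⟨n, hn, hnZ, rfl⟩ := π.mem_hat.1 hν
  have h1 := eq_Ca π hnZ hc
  rw [h1, Ca_mem_Ca, Order.lt_succ_iff] at hn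
  rcases hn.lt_or_eq with h2 | h2
  · left
    rw [π.hat_mem_hat hnZ h, h1, Ca_mem_Ca]
    exact h2
  · right
    rw [h1, h2]

theorem next_eq (hP : Preserves P) (π : Pkg P) {m k : Cardinal.{0}} (hm : Ca m ∈ π.Z)
    (hk : Ca k ∈ π.Z) (h : IsNextCard π.V (π.hat (Ca m)) (π.hat (Ca k))) : k = Order.succ m := by
  have h1 : m < k := Ca_mem_Ca.1 ((π.hat_mem_hat hm hk).1 h.2.1)
  refine le_antisymm ?_ (Order.succ_le_of_lt h1)
  by_contra hlt
  rw [not_le] at hlt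
  have hB := isBase_univ
  have hd : Dfn π.Z Set.univ fun w : Fin 1 → ZFSet.{0} => w 0 ∈ Ca k ∧
      (¬ ∃ f, IsInj (w 0) (Ca m) f) ∧ ∀ β ∈ w 0, ∃ f, IsInj β (Ca m) f := by
    refine Dfn.and (Dfn.mem (DfnF.proj 0) (DfnF.const' trivial hk)) (Dfn.and ?_ ?_)
    · exact (dfn_inj (DfnF.proj 0) (DfnF.const' trivial hm)).not
    · exact hB.ball (Q := fun β _ => ∃ f, IsInj β (Ca m) f) (DfnF.proj 0)
        (dfn_inj (DfnF.proj 0) (DfnF.const' trivial hm))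
  obtain ⟨ν, hνZ, hν, h2, h3⟩ := π.exists_Z (Q := fun ν => ν ∈ Ca k ∧
      (¬ ∃ f, IsInj ν (Ca m) f) ∧ ∀ β ∈ ν, ∃ f, IsInj β (Ca m) f) hd
    ⟨Ca (Order.succ m), Ca_mem_Ca.2 hlt, by
      rintro ⟨f, hf⟩
      have h4 := card_le_of_isInj hf
      rw [card_Ca, card_Ca] at h4
      exact absurd (Order.lt_succ m) (not_lt.2 h4), fun β hβ => exists_isInj (by
      rw [card_Ca]
      exact Order.lt_succ_iff.1 (mem_Ca.1 hβ).2)⟩
  have h4 : m < ν.card := by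
    by_contra h5
    exact h2 (exists_isInj (by rw [card_Ca]; exact not_lt.1 h5))
  have h5 : IsCard π.V (π.hat ν) := by
    refine ⟨π.of_hat_mem_V hνZ, π.hat_isOrdinal (mem_Ca.1 hν).1, ?_⟩
    rintro β hβ ⟨f, hf, hinj⟩
    obtain ⟨b, hb, hbZ, rfl⟩ := π.mem_hat.1 hβ
    have h6 := card_le_of_inj_W hP π hbZ hνZ (π.V_subset_W hf) hinj
    obtain ⟨g, hg⟩ := h3 b hb
    have h7 := card_le_of_isInj hg
    rw [card_Ca] at h7
    exact absurd h4 (not_lt.2 (h6.trans h7))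
  rcases h.2.2 _ ((π.hat_mem_hat hνZ hk).2 hν) h5 with h6 | h6
  · have h7 := (mem_Ca.1 ((π.hat_mem_hat hνZ hm).1 h6)).2
    exact absurd h7 (not_lt.2 h4.le)
  · rw [π.hat_inj hνZ hm] at h6
    rw [h6, card_Ca] at h4
    exact absurd h4 (lt_irrefl _)

/-- The generalized continuum hypothesis in the ground model. -/
theorem gch_V (gch : ∀ c : Cardinal.{0}, ℵ₀ ≤ c → (2 : Cardinal.{0}) ^ c = Order.succ c)
    (hP : Preserves P) (π : Pkg P) : GCH π.V := by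
  intro μ κ Pw hμ hκ hPw hPw'
  obtain ⟨m, hm, rfl⟩ := hμ.1.1
  obtain ⟨k, hk, rfl⟩ := hκ.1.1
  have hm1 := eq_Ca π hm hμ.1
  have hk1 := eq_Ca π hk hκ.1
  have hpZ := π.pow_Z hm
  have hp : Pw = π.hat (ZFSet.powerset m) := by
    ext z
    rw [hPw', π.mem_hat]
    constructor
    · rintro ⟨⟨y, hy, rfl⟩, h1⟩
      exact ⟨y, ZFSet.mem_powerset.2 (π.subset_of_hat hm hy h1), hy, rfl⟩
    · rintro ⟨y, hy, hyZ, rfl⟩
      exact ⟨π.of_hat_mem_V hyZ, π.hat_subset (ZFSet.mem_powerset.1 hy)⟩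
  have h2 : ℵ₀ ≤ m.card := by
    have h3 := ZFSet.card_mono hμ.2
    rw [card_omega] at h3
    exact h3.trans (card_hat_le π m)
  have h3 : k.card = Order.succ m.card := by
    refine next_eq hP π (by rw [← hm1]; exact hm) (by rw [← hk1]; exact hk) ?_
    rw [← hm1, ← hk1]
    exact hκ
  rw [hp]
  refine π.exists_bij_V hpZ hk (exists_isBij ?_)
  rw [ZFSet.card_powerset, gch _ h2, h3]

end Pool.Agent.W910.MR
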