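import Pool.Agent.W868.Fin

/-!
# The least model that contains the ground model and the generic filter: the statement
-/

set_option autoImplicit false

namespace Pool.Agent.W910.MR

open Pool.Agent.W868
open Pool.Agent.W868.PName

variable {P : Type} [Preorder P] [OrderTop P]

/-- The code of a condition: an ordinal. -/
noncomputable def cd {P : Type} (p : P) : ZFSet.{0} :=
  (Ordinal.typein (α := P) WellOrderingRel p).toZFSet

/-- The set of the codes of all conditions. -/
noncomputable def Pz (P : Type) : ZFSet.{0} :=
  (Ordinal.type (α := P) WellOrderingRel).toZFSet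

/-- The generic filter. -/
noncomputable def Gset (π : Pkg P) : ZFSet.{0} :=
  ZFSet.sep (fun z => ∃ p : P, cd p ∈ π.Z ∧ π.hat (cd p) = z ∧ ∃ n, π.g n ≤ p) (π.hat (Pz P))

/-- There are generic packages for which the extension is the least transitive model of ZF that
contains the ground model and the generic filter. -/
def S_MIN : Prop :=
  ∀ (P : Type) [Preorder P] [OrderTop P] (A : Set (PName P)), A.Countable → ∀ p₀ : P,
    ∃ π : Pkg P, A ⊆ π.N ∧ π.g 0 = p₀ ∧ Pz P ∈ π.Z ∧
      ∀ N : Set ZFSet.{0}, IsZF N → π.V ⊆ N → Gset π ∈ N → π.W ⊆ N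

end Pool.Agent.W910.MR
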