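import Pool.Agent.W910.MR.Names

/-!
# The singular cardinal in the ground model
-/

set_option autoImplicit false
set_option linter.unreachableTactic false
set_option linter.unusedTactic false
set_option linter.unusedSectionVars false

namespace Pool.Agent.W910.MR

open ZFSet (pair)
open Cardinal
open Pool.Agent.W868
open Pool.Agent.W868.PName

/-- The cofinal maps, with bounded quantifiers. -/
def Cof0 (α lam f : ZFSet.{0}) : Prop :=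
  (∀ p ∈ f, ∃ a ∈ α, ∃ b ∈ lam, p = pair a b) ∧
  (∀ a ∈ α, ∃ b ∈ lam, pair a b ∈ f ∧ ∀ b' ∈ lam, pair a b' ∈ f → b' = b) ∧
  ∀ β ∈ lam, ∃ γ ∈ α, ∃ δ ∈ lam, pair γ δ ∈ f ∧ β ∈ δ

theorem cof0_iff {α lam f : ZFSet.{0}} : Cof0 α lam f ↔ IsCofinalMap α lam f := by
  constructor
  · rintro ⟨h1, h2, h3⟩
    have hs : f ⊆ ZFSet.prod α lam := by
      intro p hp
      obtain ⟨a, ha, b, hb, rfl⟩ := h1 p hp
      exact ZFSet.pair_mem_prod.2 ⟨ha, hb⟩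
    refine ⟨⟨hs, fun a ha => ?_⟩, fun β hβ => ?_⟩
    · obtain ⟨b, hb, h4, h5⟩ := h2 a ha
      exact ⟨b, h4, fun b' hb' => h5 b' (ZFSet.pair_mem_prod.1 (hs hb')).2 hb'⟩
    · obtain ⟨γ, -, δ, -, h4, h5⟩ := h3 β hβ
      exact ⟨γ, δ, h4, h5⟩
  · rintro ⟨⟨hs, h2⟩, h3⟩
    refine ⟨fun p hp => ZFSet.mem_prod.1 (hs hp), fun a ha => ?_, fun β hβ => ?_⟩
    · obtain ⟨b, hb, h4⟩ := h2 a ha
      exact ⟨b, (ZFSet.pair_mem_prod.1 (hs hb)).2, hb, fun b' _ h5 => h4 b' h5⟩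
    · obtain ⟨γ, δ, h4, h5⟩ := h3 β hβ
      have h6 := ZFSet.pair_mem_prod.1 (hs h4)
      exact ⟨γ, h6.1, δ, h6.2, h4, h5⟩

theorem d0_cof0 : D0 fun v : Fin 3 → ZFSet.{0} => Cof0 (v 0) (v 1) (v 2) := by
  apply D0.and
  · apply D0.ball (D0v.proj 2)
    apply D0.bex (D0v.proj 1)
    apply D0.bex (D0v.proj 3)
    exact D0.isPair (D0v.proj 2) (D0v.proj 1) (D0v.proj 0)
  apply D0.and
  · apply D0.ball (D0v.proj 0)
    apply D0.bex (D0v.proj 2)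
    apply D0.and
    · exact D0.pairMem (D0v.proj 1) (D0v.proj 0) (D0v.proj 4)
    · apply D0.ball (D0v.proj 3)
      apply D0.imp
      · exact D0.pairMem (D0v.proj 2) (D0v.proj 0) (D0v.proj 5)
      · exact D0.eq (D0v.proj 0) (D0v.proj 1)
  · apply D0.ball (D0v.proj 1)
    apply D0.bex (D0v.proj 1)
    apply D0.bex (D0v.proj 3)
    apply D0.and
    · exact D0.pairMem (D0v.proj 1) (D0v.proj 0) (D0v.proj 5)
    · exact D0.mem (D0v.proj 2) (D0v.proj 0)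

variable {P : Type} [Preorder P] [OrderTop P]

theorem cof_hat (π : Pkg P) {a l f : ZFSet.{0}} (ha : a ∈ π.Z) (hl : l ∈ π.Z) (hf : f ∈ π.Z) :
    IsCofinalMap (π.hat a) (π.hat l) (π.hat f) ↔ IsCofinalMap a l f := by
  rw [← cof0_iff, ← cof0_iff]
  exact transfer d0_cof0 π ![a, l, f] (by
    intro i
    fin_cases i
    · exact ha
    · exact hl
    · exact hf)

variable {κ : Cardinal.{0}} {U : Ultrafilter (Ty (Ca κ))}

/-- The cofinal map. -/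
noncomputable def cofMap (κ : Cardinal.{0}) : ZFSet.{0} :=
  ZFSet.range fun i : Ty (Ca κ) => pair (el i) (Ca (lc i))

theorem cofMap_spec (hκ : ℵ₀ ≤ κ) : IsCofinalMap (Ca κ) (Ca (lamC κ)) (cofMap κ) := by
  refine ⟨⟨?_, ?_⟩, ?_⟩
  · intro p hp
    obtain ⟨i, rfl⟩ := ZFSet.mem_range.1 hp
    exact ZFSet.pair_mem_prod.2 ⟨el_mem i, Ca_mem_Ca.2 (lc_lt i)⟩
  · intro a ha
    obtain ⟨i, rfl⟩ := exists_el ha
    refine ⟨Ca (lc i), ZFSet.mem_range.2 ⟨i, rfl⟩, fun b hb => ?_⟩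
    obtain ⟨j, hj⟩ := ZFSet.mem_range.1 hb
    obtain ⟨h1, h2⟩ := ZFSet.pair_inj.1 hj
    obtain rfl := el_injective h1
    exact h2.symm
  · intro β hβ
    have hβ' : β.rank < (lamC κ).ord := by
      rw [Ca, Ordinal.mem_toZFSet_iff] at hβ
      obtain ⟨a, ha, rfl⟩ := hβ
      rwa [Ordinal.rank_toZFSet]
    obtain ⟨i, hi⟩ := exists_lc hκ hβ'
    refine ⟨el i, Ca (lc i), ZFSet.mem_range.2 ⟨i, rfl⟩, ?_⟩
    rw [Ca, Ordinal.mem_toZFSet_iff]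
    exact ⟨β.rank, hi, (mem_Ca.1 hβ).1.toZFSet_rank_eq⟩

theorem isSing (hU : Measures (Ty (Ca κ)) U) (hP : Preserves P) (π : Pkg P) (hκ : Ca κ ∈ π.Z)
    (hl : Ca (lamC κ) ∈ π.Z) (hf : cofMap κ ∈ π.Z) : IsSingUncof π.V (π.hat (Ca (lamC κ))) := by
  have hκ0 : ℵ₀ ≤ κ := by
    have := hU.uncountable.le
    rwa [card_ty_Ca] at this
  refine ⟨⟨isCard_hat hP π hl, ?_⟩, ?_, ?_⟩
  · have h := π.hat_subset (omega_subset_Ca (aleph0_le_lamC (κ := κ)))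
    rwa [π.hat_omega] at h
  · exact ⟨_, (π.hat_mem_hat hκ hl).2 (Ca_mem_Ca.2 (lt_lamC hκ0)), _, π.of_hat_mem_V hf,
      (cof_hat π hκ hl hf).2 (cofMap_spec hκ0)⟩
  · rintro ⟨_, ⟨g, hg, rfl⟩, h⟩
    rw [← π.hat_omega, cof_hat π π.omega_Z hl hg] at h
    have h1 : ∀ n : ℕ, ∃ i : Ty (Ca (lamC κ)), pair (nat n) (el i) ∈ g := by
      intro n
      obtain ⟨b, hb, h2⟩ := fun_exists h.1 (mem_omega_iff.2 ⟨n, rfl⟩)
      obtain ⟨i, rfl⟩ := exists_el hb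
      exact ⟨i, h2⟩
    choose s hs using h1
    obtain ⟨b, hb⟩ := exists_bound hU s
    obtain ⟨γ, δ, h2, h3⟩ := h.2 (el b) (el_mem b)
    obtain ⟨n, rfl⟩ := mem_omega_iff.1 (ZFSet.pair_mem_prod.1 (h.1.1 h2)).1
    have h4 : δ = el (s n) := fun_unique h.1 h2 (hs n)
    rw [h4] at h3
    have h5 := ZFSet.rank_lt_of_mem h3
    exact absurd (hb n) (not_lt.2 h5.le)

end Pool.Agent.W910.MR
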