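import Pool.Agent.W910.MR.Weak
import Pool.Agent.W910.MR.Sing
import Pool.Agent.W910.MR.MinStm

/-!
# The main theorem
-/

set_option autoImplicit false
set_option linter.unreachableTactic false
set_option linter.unusedTactic false
set_option linter.unusedSectionVars false

namespace Pool.Agent.W910.MR

open ZFSet (pair)
open Cardinal
open Pool.Agent.W868
open Pool.Agent.W868.PName

theorem cd_injective {P : Type} : Function.Injective (cd : P → ZFSet.{0}) := by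
  intro p q h
  exact (Ordinal.typein_inj WellOrderingRel).1 (Ordinal.toZFSet_injective h)

section general

variable {P : Type} [Preorder P] [OrderTop P] {B : ZFSet.{0}}

/-- The correspondence between the codes. -/
noncomputable def Bij (e : P → Ty B) : ZFSet.{0} := ZFSet.range fun p => pair (cd p) (el (e p))

theorem mem_Bij {e : P → Ty B} (he : Function.Injective e) {p : P} {z : ZFSet.{0}} :
    pair z (el (e p)) ∈ Bij e ↔ z = cd p := by
  rw [Bij, ZFSet.mem_range]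
  constructor
  · rintro ⟨q, hq⟩
    obtain ⟨h1, h2⟩ := ZFSet.pair_inj.1 hq
    obtain rfl := he (el_injective h2)
    exact h1.symm
  · rintro rfl
    exact ⟨p, rfl⟩

theorem mem_Bij' {e : P → Ty B} {p : P} {z : ZFSet.{0}} :
    pair (cd p) z ∈ Bij e ↔ z = el (e p) := by
  rw [Bij, ZFSet.mem_range]
  constructor
  · rintro ⟨q, hq⟩
    obtain ⟨h1, h2⟩ := ZFSet.pair_inj.1 hq
    obtain rfl := cd_injective h1
    exact h2.symm
  · rintro rfl
    exact ⟨p, rfl⟩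

/-- The generic filter is computed from the generic set of ordinals. -/
theorem gset_eq (π : Pkg P) {e : P → Ty B} (he : Function.Injective e) (hB : Bij e ∈ π.Z)
    (hP : Pz P ∈ π.Z) : Gset π = ZFSet.sep (fun z => ∃ y ∈ π.val (An e), pair z y ∈ π.hat (Bij e))
      (π.hat (Pz P)) := by
  ext z
  rw [Gset, ZFSet.mem_sep, ZFSet.mem_sep]
  refine and_congr_right fun hz => ?_
  constructor
  · rintro ⟨p, hp, rfl, hn⟩
    have hBu := isBase_univ
    have hd : Dfn π.Z Set.univ fun w : Fin 1 → ZFSet.{0} => pair (cd p) (w 0) ∈ Bij e :=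
      Dfn.mem (hBu.pair' (DfnF.const' trivial hp) (DfnF.proj 0)) (DfnF.const' trivial hB)
    obtain ⟨y, hy, h1⟩ := π.exists_Z (Q := fun y => pair (cd p) y ∈ Bij e) hd
      ⟨_, mem_Bij'.2 rfl⟩
    obtain rfl := mem_Bij'.1 h1
    exact ⟨_, (mem_An π).2 ⟨p, hy, hn, rfl⟩, (π.pair_mem_hat hp hy hB).2 h1⟩
  · rintro ⟨y, hy, h1⟩
    obtain ⟨p, hp, hn, rfl⟩ := (mem_An π).1 hy
    obtain ⟨z', hz', hzZ, rfl⟩ := π.mem_hat.1 hz
    rw [π.pair_mem_hat hzZ hp hB, mem_Bij he] at h1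
    subst h1
    exact ⟨p, hzZ, rfl, hn⟩

theorem minimal (hMIN : S_MIN) {e : P → Ty B} (he : Function.Injective e)
    (S : Set (PName P)) (hS : S.Countable) (p₀ : P) :
    ∃ π : Pkg P, S ⊆ π.N ∧ π.g 0 = p₀ ∧
      ∀ N : Set ZFSet.{0}, IsZF N → π.V ⊆ N → π.val (An e) ∈ N → π.W ⊆ N := by
  obtain ⟨π, h1, h2, h3, h4⟩ := hMIN P (S ∪ {check (Bij e)}) (hS.union (Set.toFinite _).countable) p₀
  refine ⟨π, fun x hx => h1 (Or.inl hx), h2, fun N hN hV hA => h4 N hN hV ?_⟩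
  have hB : Bij e ∈ π.Z := h1 (Or.inr rfl)
  rw [gset_eq π he hB h3]
  have hBN := hN.base
  refine hN.sep_mem (Q := fun z => ∃ y ∈ π.val (An e), pair z y ∈ π.hat (Bij e)) ?_
    (hV (π.of_hat_mem_V h3))
  apply hBN.bex (DfnF.const hA)
  exact Dfn.mem (hBN.pair' (DfnF.proj 1) (DfnF.proj 0)) (DfnF.const (hV (π.of_hat_mem_V hB)))

end general

variable {κ : Cardinal.{0}} {U : Ultrafilter (Ty (Ca κ))}

theorem mainκ (hMIN : S_MIN)
    (gch : ∀ c : Cardinal.{0}, ℵ₀ ≤ c → (2 : Cardinal.{0}) ^ c = Order.succ c)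
    (hU : Measures (Ty (Ca κ)) U) :
    ∃ V W : Set ZFSet.{0}, V.Countable ∧ W.Countable ∧ IsZFC V ∧ IsZFC W ∧ GCH V ∧ V ⊆ W ∧
      (∀ α : ZFSet.{0}, α.IsOrdinal → (α ∈ V ↔ α ∈ W)) ∧
      (∀ κ, IsCard V κ ↔ IsCard W κ) ∧
      ∃ lam A, IsSingUncof V lam ∧ A ⊆ lam ∧ A ∈ W ∧
        (∀ N, IsZFC N → V ⊆ N → A ∈ N → W ⊆ N) ∧
        ∃ μ, IsNextCard V lam μ ∧ IsNextCard W lam μ ∧ ∃ R ∈ W,
          (∀ r ∈ R, r ⊆ ZFSet.omega ∧ r ∈ Adjoin (HPlus V lam) A) ∧ ∃ F ∈ W, IsInj μ R F := by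
  classical
  have hP : Preserves (PQ U) := fun X Y h => no_collapse hU h
  obtain ⟨f, hf⟩ := exists_family hU
  obtain ⟨e⟩ : Nonempty (PQ U ↪ Ty (Ca (lamC κ))) := by
    rw [← Cardinal.le_def, card_ty_Ca]
    exact card_cond gch hU
  have he : Function.Injective (e : PQ U → Ty (Ca (lamC κ))) := e.injective
  set S : Set (PName (PQ U)) := {An e, check (Dz e f), check (Ca κ), check (Ca (lamC κ)),
    check (Ca (Order.succ (lamC κ))), check (cofMap κ), check (T0 (lamC κ))} with hS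
  obtain ⟨π, h1, -, h2⟩ := minimal hMIN he S (by simp [hS, Set.countable_insert]) ⊤
  have hA : An e ∈ π.N := h1 (by simp [hS])
  have hD : Dz e f ∈ π.Z := h1 (by simp [hS])
  have hκ : Ca κ ∈ π.Z := h1 (by simp [hS])
  have hl : Ca (lamC κ) ∈ π.Z := h1 (by simp [hS])
  have hm : Ca (Order.succ (lamC κ)) ∈ π.Z := h1 (by simp [hS])
  have hc : cofMap κ ∈ π.Z := h1 (by simp [hS])
  have hT : T0 (lamC κ) ∈ π.Z := h1 (by simp [hS])
  have hV := π.isZFC_V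
  have hW := π.isZFC_W
  have hAW : π.val (An e) ∈ π.W := ⟨_, hA, rfl⟩
  have hAl : π.val (An e) ⊆ π.hat (Ca (lamC κ)) := by
    intro z hz
    obtain ⟨p, hp, -, rfl⟩ := (mem_An π).1 hz
    exact (π.hat_mem_hat hp hl).2 (el_mem _)
  have hDV : π.hat (Dz e f) ∈ π.V := π.of_hat_mem_V hD
  have hnext := isNextCard_hat hP π hl hm
  have hWB := hW.toIsZF.base
  -- the set of the reals
  have hdef : DfnF π.W π.W fun w : Fin 1 → ZFSet.{0} =>
      rr (π.val (An e)) (π.hat (Dz e f)) (w 0) := by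
    refine hW.toIsZF.sep' (n := 1) (F := fun _ => ZFSet.omega) (Q := fun k v =>
      ∃ γ ∈ π.val (An e), pair (v 0) (pair k γ) ∈ π.hat (Dz e f))
      (DfnF.const hW.infinity) ?_
    apply hWB.bex (DfnF.const hAW)
    refine Dfn.mem (hWB.pair' (DfnF.proj 2) (hWB.pair' (DfnF.proj 1) (DfnF.proj 0)))
      (DfnF.const (π.V_subset_W hDV))
  have hmW : π.hat (Ca (Order.succ (lamC κ))) ∈ π.W := π.V_subset_W (π.of_hat_mem_V hm)
  have hR := hW.toIsZF.im_mem hmW hdef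
  refine ⟨π.V, π.W, ?_, π.countable_W, hV, hW, gch_V gch hP π, π.V_subset_W, ?_, ?_,
    π.hat (Ca (lamC κ)), π.val (An e), isSing hU hP π hκ hl hc, hAl, hAW,
    fun N hN => h2 N hN.toIsZF, π.hat (Ca (Order.succ (lamC κ))), hnext,
    (isNextCard_iff hP π _ _).1 hnext, _, hR, ?_, ?_⟩
  · exact π.countable_W.mono π.V_subset_W
  · exact fun α hα => ⟨fun h => π.V_subset_W h, fun h => π.ord_V hα h⟩
  · exact isCard_iff hP π
  · intro r hr
    obtain ⟨x, hx, rfl⟩ := mem_im.1 hr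
    refine ⟨ZFSet.sep_subset, rr_adjoin π aleph0_le_lamC hl hT hAl hDV ?_⟩
    exact π.trans_V (π.of_hat_mem_V hm) hx
  · refine Inj.of_fun hW.toIsZF hmW hR hdef (fun a ha => mem_im.2 ⟨a, ha, rfl⟩) ?_
    intro a ha b hb hab
    obtain ⟨a', ha', haZ, rfl⟩ := π.mem_hat.1 ha
    obtain ⟨b', hb', hbZ, rfl⟩ := π.mem_hat.1 hb
    obtain ⟨ξ, rfl⟩ := exists_el ha'
    obtain ⟨η, rfl⟩ := exists_el hb'
    by_contra hne
    have h3 : ξ ≠ η := by
      rintro rfl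
      exact hne rfl
    exact rr_ne he π hA hD haZ hbZ (hf ξ η h3) hab

theorem main (hMIN : S_MIN)
    (gch : ∀ c : Cardinal.{0}, ℵ₀ ≤ c → (2 : Cardinal.{0}) ^ c = Order.succ c)
    (meas : ∃ (K : Type) (U : Ultrafilter K), Measures K U) :
    ∃ V W : Set ZFSet.{0}, V.Countable ∧ W.Countable ∧ IsZFC V ∧ IsZFC W ∧ GCH V ∧ V ⊆ W ∧
      (∀ α : ZFSet.{0}, α.IsOrdinal → (α ∈ V ↔ α ∈ W)) ∧
      (∀ κ, IsCard V κ ↔ IsCard W κ) ∧
      ∃ lam A, IsSingUncof V lam ∧ A ⊆ lam ∧ A ∈ W ∧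
        (∀ N, IsZFC N → V ⊆ N → A ∈ N → W ⊆ N) ∧
        ∃ μ, IsNextCard V lam μ ∧ IsNextCard W lam μ ∧ ∃ R ∈ W,
          (∀ r ∈ R, r ⊆ ZFSet.omega ∧ r ∈ Adjoin (HPlus V lam) A) ∧ ∃ F ∈ W, IsInj μ R F := by
  obtain ⟨K, U, hU⟩ := meas
  obtain ⟨e⟩ : Nonempty (K ≃ Ty (Ca #K)) := by
    rw [← Cardinal.eq, card_ty_Ca]
  exact mainκ hMIN gch (hU.congr e)

end Pool.Agent.W910.MR
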