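import Pool.Agent.W910.MR.Fam

/-!
# The generic set of ordinals and the reals that are computed from it
-/

set_option autoImplicit false
set_option linter.unreachableTactic false
set_option linter.unusedTactic false
set_option linter.unusedSectionVars false

namespace Pool.Agent.W910.MR

open ZFSet (pair)
open Cardinal
open Pool.Agent.W868
open Pool.Agent.W868.PName

section general

variable {P : Type} [Preorder P] [OrderTop P] {B : ZFSet.{0}}

/-- The name of the set of the codes of the conditions in the generic filter. -/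
noncomputable def An (e : P → Ty B) : PName P := mk P (fun p => check (el (e p))) id

theorem mem_An (π : Pkg P) {e : P → Ty B} {z : ZFSet.{0}} : z ∈ π.val (An e) ↔
    ∃ p, el (e p) ∈ π.Z ∧ (∃ n, π.g n ≤ p) ∧ π.hat (el (e p)) = z := by
  rw [Pkg.mem_val]
  constructor
  · rintro ⟨y, hy, c, hc, hn, rfl⟩
    obtain ⟨p, rfl, rfl⟩ := el_mk.1 hc
    exact ⟨p, hy, hn, rfl⟩
  · rintro ⟨p, hp, hn, rfl⟩
    exact ⟨_, hp, p, el_mk.2 ⟨p, rfl, rfl⟩, hn, rfl⟩

end general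

variable {κ : Cardinal.{0}} {U : Ultrafilter (Ty (Ca κ))}

/-- The forcing notion. -/
abbrev PQ (U : Ultrafilter (Ty (Ca κ))) : Type := Pri U × Coh (Ty (Ca (lamC κ)) × ℕ)

/-- The condition `p` forces that the real of `f` contains the number of the pair `(n, m)`. -/
def Dec (f : Ty (Ca κ) → Ty (Ca (lamC κ))) (p : PQ U) (n m : ℕ) : Prop :=
  ∃ i, p.1.s[n]? = some i ∧ ((f i, m), true) ∈ p.2.1

/-- The relation from which all the reals are computed. -/
noncomputable def Dz (e : PQ U → Ty (Ca (lamC κ)))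
    (f : Ty (Ca (Order.succ (lamC κ))) → Ty (Ca κ) → Ty (Ca (lamC κ))) : ZFSet.{0} :=
  ZFSet.range fun t : {t : Ty (Ca (Order.succ (lamC κ))) × PQ U × ℕ × ℕ //
    Dec (f t.1) t.2.1 t.2.2.1 t.2.2.2} =>
      pair (el t.1.1) (pair (nat (Nat.pair t.1.2.2.1 t.1.2.2.2)) (el (e t.1.2.1)))

variable {e : PQ U → Ty (Ca (lamC κ))}
  {f : Ty (Ca (Order.succ (lamC κ))) → Ty (Ca κ) → Ty (Ca (lamC κ))}

theorem mem_Dz (he : Function.Injective e) {ξ : Ty (Ca (Order.succ (lamC κ)))} {N : ℕ} {p : PQ U} :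
    pair (el ξ) (pair (nat N) (el (e p))) ∈ Dz e f ↔
      ∃ n m, N = Nat.pair n m ∧ Dec (f ξ) p n m := by
  rw [Dz, ZFSet.mem_range]
  constructor
  · rintro ⟨⟨⟨ξ', p', n, m⟩, h⟩, h1⟩
    obtain ⟨h2, h3⟩ := ZFSet.pair_inj.1 h1
    obtain ⟨h4, h5⟩ := ZFSet.pair_inj.1 h3
    obtain rfl := el_injective h2
    obtain rfl := he (el_injective h5)
    exact ⟨n, m, (nat_injective h4).symm, h⟩
  · rintro ⟨n, m, rfl, h⟩
    exact ⟨⟨(ξ, p, n, m), h⟩, rfl⟩

/-- The real number `x` in the extension. -/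
noncomputable def rr (A D x : ZFSet.{0}) : ZFSet.{0} :=
  ZFSet.sep (fun k => ∃ γ ∈ A, pair x (pair k γ) ∈ D) ZFSet.omega

theorem mem_rr (he : Function.Injective e) (π : Pkg (PQ U)) (hD : Dz e f ∈ π.Z)
    {ξ : Ty (Ca (Order.succ (lamC κ)))} (hξ : el ξ ∈ π.Z) {N : ℕ} :
    nat N ∈ rr (π.val (An e)) (π.hat (Dz e f)) (π.hat (el ξ)) ↔
      ∃ p, el (e p) ∈ π.Z ∧ (∃ n, π.g n ≤ p) ∧ ∃ n m, N = Nat.pair n m ∧ Dec (f ξ) p n m := by
  rw [rr, ZFSet.mem_sep]
  constructor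
  · rintro ⟨-, γ, hγ, h⟩
    obtain ⟨p, hp, hn, rfl⟩ := (mem_An π).1 hγ
    refine ⟨p, hp, hn, (mem_Dz he).1 ?_⟩
    rw [← π.hat_nat N, ← π.hat_pair (π.nat_Z N) hp,
      ← π.hat_pair hξ (π.pair_mem_Z (π.nat_Z N) hp)] at h
    exact (π.hat_mem_hat (π.pair_mem_Z hξ (π.pair_mem_Z (π.nat_Z N) hp)) hD).1 h
  · rintro ⟨p, hp, hn, h⟩
    refine ⟨mem_omega_iff.2 ⟨N, rfl⟩, _, (mem_An π).2 ⟨p, hp, hn, rfl⟩, ?_⟩
    rw [← π.hat_nat N, ← π.hat_pair (π.nat_Z N) hp,
      ← π.hat_pair hξ (π.pair_mem_Z (π.nat_Z N) hp)]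
    exact (π.hat_mem_hat (π.pair_mem_Z hξ (π.pair_mem_Z (π.nat_Z N) hp)) hD).2 ((mem_Dz he).2 h)

/-- Two functions that differ almost everywhere give different reals. -/
theorem rr_ne (he : Function.Injective e) (π : Pkg (PQ U)) (hA : An e ∈ π.N) (hD : Dz e f ∈ π.Z)
    {ξ η : Ty (Ca (Order.succ (lamC κ)))} (hξ : el ξ ∈ π.Z) (hη : el η ∈ π.Z)
    (hne : {i | f ξ i = f η i} ∉ U) :
    rr (π.val (An e)) (π.hat (Dz e f)) (π.hat (el ξ)) ≠
      rr (π.val (An e)) (π.hat (Dz e f)) (π.hat (el η)) := by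
  classical
  intro hcon
  set S : Set (PName (PQ U)) := {An e, check (Dz e f), check (el ξ), check (el η),
    check ZFSet.omega} with hS
  have s1 : An e ∈ S := by simp [hS]
  have s2 : check (Dz e f) ∈ S := by simp [hS]
  have s3 : check (el ξ) ∈ S := by simp [hS]
  have s4 : check (el η) ∈ S := by simp [hS]
  have s5 : check ZFSet.omega ∈ S := by simp [hS]
  have hSπ : S ⊆ π.N := by
    rintro x (rfl | rfl | rfl | rfl | rfl)
    · exact hA
    · exact hD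
    · exact hξ
    · exact hη
    · exact π.omega_Z
  have hd : NDfn S fun π (_ : Fin 0 → ZFSet.{0}) => ∀ k ∈ π.hat ZFSet.omega,
      ((∃ γ ∈ π.val (An e), pair (π.hat (el ξ)) (pair k γ) ∈ π.hat (Dz e f)) ↔
        ∃ γ ∈ π.val (An e), pair (π.hat (el η)) (pair k γ) ∈ π.hat (Dz e f)) := by
    (repeat' first
      | assumption
      | exact NDfnF.proj _
      | exact NDfnF.val (by assumption)
      | exact NDfnF.hat (by assumption)
      | apply NDfn.not | apply NDfn.and | apply NDfn.or | apply NDfn.imp | apply NDfn.iff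
      | apply NDfn.bex | apply NDfn.ball | apply NDfn.ex | apply NDfn.all
      | apply NDfn.eq | apply NDfn.mem | apply NDfnF.pair)
  obtain ⟨k, hk⟩ := forcing_theorem hd π hSπ (by
    intro n hn
    rw [π.hat_omega] at hn
    have h1 : n ∈ rr (π.val (An e)) (π.hat (Dz e f)) (π.hat (el ξ)) ↔
        n ∈ rr (π.val (An e)) (π.hat (Dz e f)) (π.hat (el η)) := by rw [hcon]
    rw [rr, rr, ZFSet.mem_sep, ZFSet.mem_sep] at h1
    simpa [hn] using h1)
  -- extend the condition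
  rcases hg : π.g k with ⟨⟨s, B, hB⟩, q⟩
  rw [hg] at hk
  have hne' : {i | f ξ i = f η i}ᶜ ∈ U := Ultrafilter.compl_mem_iff_notMem.2 hne
  obtain ⟨i, hi, hi2⟩ := U.nonempty_of_mem (Filter.inter_mem (hB s) hne')
  have hi2 : f ξ i ≠ f η i := hi2
  obtain ⟨m, hm⟩ : ∃ n : ℕ, ∀ t ∈ q.1, t.1.2 < n := by
    refine ⟨(q.1.sup fun t => t.1.2) + 1, fun t ht => ?_⟩
    exact Nat.lt_succ_of_le (Finset.le_sup (f := fun t => t.1.2) ht)
  have hm' : ∀ l b, ((l, m), b) ∉ q.1 := by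
    intro l b h
    have h1 : m < m := hm _ h
    omega
  set q1 := q.add (f ξ i, m) true (hm' _ _) with hq1
  have h1 : ((f η i, m), !false) ∉ q1.1 := by
    intro h
    rw [hq1] at h
    rcases Finset.mem_insert.1 h with h | h
    · exact hi2 (Prod.mk.inj (Prod.mk.inj h).1).1.symm
    · exact hm' _ _ h
  set q2 := q1.add (f η i, m) false h1 with hq2
  have hqq : q2 ≤ q := (Finset.subset_insert _ _).trans (Finset.subset_insert _ _)
  set r : PQ U := (⟨s ++ [i], B, hB⟩, q2) with hr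
  have hrk : r ≤ (⟨s, B, hB⟩, q) :=
    ⟨⟨fun _ => Set.Subset.rfl, [i], rfl, hi, trivial⟩, hqq⟩
  obtain ⟨π', h2, h3⟩ := exists_pkg' (S ∪ {check (el (e r))})
    ((Set.toFinite S).countable.union (Set.toFinite _).countable) r
  have hSπ' : S ⊆ π'.N := fun x hx => h2 (Or.inl hx)
  have hrZ : el (e r) ∈ π'.Z := h2 (Or.inr (by simp))
  have hDZ : Dz e f ∈ π'.Z := hSπ' s2
  have hξZ : el ξ ∈ π'.Z := hSπ' s3
  have hηZ : el η ∈ π'.Z := hSπ' s4
  have h4 := hk π' hSπ' ⟨0, by rw [h3]; exact hrk⟩ (nat (Nat.pair s.length m)) (by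
    rw [π'.hat_omega]
    exact mem_omega_iff.2 ⟨_, rfl⟩)
  have h5 : nat (Nat.pair s.length m) ∈
      rr (π'.val (An e)) (π'.hat (Dz e f)) (π'.hat (el ξ)) ↔
      nat (Nat.pair s.length m) ∈ rr (π'.val (An e)) (π'.hat (Dz e f)) (π'.hat (el η)) := by
    rw [rr, rr, ZFSet.mem_sep, ZFSet.mem_sep]
    exact and_congr_right fun _ => h4
  rw [mem_rr he π' hDZ hξZ, mem_rr he π' hDZ hηZ] at h5
  obtain ⟨p, -, ⟨j, hj⟩, n', m', hnm, i', hi', hq'⟩ := h5.1 ⟨r, hrZ, ⟨0, h3.le⟩, s.length, m, rfl, i,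
    by simp [hr], by
      show ((f ξ i, m), true) ∈ q2.1
      exact Finset.mem_insert_of_mem (Finset.mem_insert_self _ _)⟩
  have h6 := Nat.pair_eq_pair.1 hnm
  obtain ⟨rfl, rfl⟩ := h6
  -- compare with the condition `r`
  have h7 : π'.g j ≤ r := by
    rw [← h3]
    exact π'.g_anti (Nat.zero_le j)
  have hget : ∀ {p₁ p₂ : Pri U} {n : ℕ} {a : Ty (Ca κ)}, p₁ ≤ p₂ → p₂.s[n]? = some a →
      p₁.s[n]? = some a := by
    intro p₁ p₂ n a hle h
    obtain ⟨-, u, hu, -⟩ := hle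
    rw [hu, List.getElem?_append_left, h]
    exact (List.getElem?_eq_some_iff.1 h).1
  have h8 := hget hj.1 hi'
  have h9 : (π'.g j).1.s[s.length]? = some i := hget h7.1 (by simp [hr])
  rw [h8] at h9
  obtain rfl : i' = i := by simpa using h9
  have h10 : ((f η i', m), true) ∈ (π'.g j).2.1 := hj.2 hq'
  have h11 : ((f η i', m), false) ∈ (π'.g j).2.1 := h7.2 (Finset.mem_insert_self _ _)
  exact (π'.g j).2.not_both h10 h11

end Pool.Agent.W910.MR
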