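import Pool.Agent.W868.Cohen
import Pool.Agent.W910.MR.Defs

/-!
# Tree Prikry forcing: the strong Prikry property
-/

set_option autoImplicit false

namespace Pool.Agent.W910.MR

open Cardinal Set
open Pool.Agent.W868 (Coh)

variable {K : Type}

/-- The elements of `u`, added one after the other to the stem `s`, are taken from `B`. -/
def Ok (B : List K → Set K) : List K → List K → Prop
  | _, [] => True
  | s, a :: u => a ∈ B s ∧ Ok B (s ++ [a]) u

theorem ok_mono {B B' : List K → Set K} :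
    ∀ (u s : List K), (∀ v, B (s ++ v) ⊆ B' (s ++ v)) → Ok B s u → Ok B' s u
  | [], _, _, _ => trivial
  | a :: u, s, h, h1 => by
    refine ⟨?_, ok_mono u (s ++ [a]) (fun v => ?_) h1.2⟩
    · have := h [] 
      rw [List.append_nil] at this
      exact this h1.1
    · rw [List.append_assoc]
      exact h _

theorem ok_append {B : List K → Set K} : ∀ (u v s : List K),
    Ok B s (u ++ v) ↔ Ok B s u ∧ Ok B (s ++ u) v
  | [], v, s => by simp [Ok]
  | a :: u, v, s => by
    rw [List.cons_append, Ok, Ok, ok_append u v, and_assoc, List.append_assoc]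
    rfl

/-- Conditions of tree Prikry forcing: a stem and, for each finite sequence, a set of the
ultrafilter from which the next element is to be taken. -/
structure Pri (U : Ultrafilter K) : Type where
  s : List K
  B : List K → Set K
  hB : ∀ t, B t ∈ U

namespace Pri

variable {U : Ultrafilter K}

instance : Preorder (Pri U) where
  le p q := (∀ v, p.B (p.s ++ v) ⊆ q.B (p.s ++ v)) ∧ ∃ u, p.s = q.s ++ u ∧ Ok q.B q.s u
  le_refl p := ⟨fun _ => Subset.rfl, [], by simp, trivial⟩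
  le_trans p q r h1 h2 := by
    obtain ⟨h1, u, hu, hu'⟩ := h1
    obtain ⟨h2, v, hv, hv'⟩ := h2
    refine ⟨fun t => (h1 t).trans ?_, v ++ u, by rw [hu, hv, List.append_assoc], ?_⟩
    · rw [hu, List.append_assoc]
      exact h2 _
    · rw [ok_append]
      refine ⟨hv', ?_⟩
      rw [← hv]
      exact ok_mono _ _ h2 hu'

theorem le_def {p q : Pri U} : p ≤ q ↔ (∀ v, p.B (p.s ++ v) ⊆ q.B (p.s ++ v)) ∧
    ∃ u, p.s = q.s ++ u ∧ Ok q.B q.s u :=
  Iff.rfl

theorem ok_univ : ∀ (u s : List K), Ok (fun _ => univ) s u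
  | [], _ => trivial
  | _ :: u, _ => ⟨mem_univ _, ok_univ u _⟩

instance : OrderTop (Pri U) where
  top := ⟨[], fun _ => univ, fun _ => Filter.univ_mem⟩
  le_top p := ⟨fun _ => subset_univ _, p.s, rfl, ok_univ _ _⟩

/-- Replace the stem. -/
def stem (p : Pri U) (t : List K) : Pri U := ⟨t, p.B, p.hB⟩

theorem stem_le {p : Pri U} {u : List K} (h : Ok p.B p.s u) : p.stem (p.s ++ u) ≤ p :=
  ⟨fun _ => Subset.rfl, u, rfl, h⟩

theorem exists_ok (p : Pri U) : ∀ (n : ℕ) (s : List K), ∃ u, u.length = n ∧ Ok p.B s u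
  | 0, s => ⟨[], rfl, trivial⟩
  | n + 1, s => by
    obtain ⟨a, ha⟩ := U.nonempty_of_mem (p.hB s)
    obtain ⟨u, hu, hu'⟩ := exists_ok p n (s ++ [a])
    exact ⟨a :: u, by simp [hu], ha, hu'⟩

end Pri

open Pri

variable {U : Ultrafilter K}

/-- `t` with the sets `B` forces its way into `D` after `n` steps. -/
def Good (D : Set (Pri U)) (n : ℕ) (t : List K) : Prop :=
  ∃ (B : List K → Set K) (hB : ∀ t, B t ∈ U), ∀ u, u.length = n → Ok B t u →
    (⟨t ++ u, B, hB⟩ : Pri U) ∈ D

theorem good_of_many {D : Set (Pri U)} (hD : ∀ p ∈ D, ∀ q ≤ p, q ∈ D)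
    {n : ℕ} {t : List K} (h : {a | Good D n (t ++ [a])} ∈ U) : Good D (n + 1) t := by
  classical
  choose! C hC hC' using fun (a : K) (ha : Good D n (t ++ [a])) => ha
  -- the sets for the extensions of `t` by the first new element
  let B : List K → Set K := fun r =>
    if r = t then {a | Good D n (t ++ [a])}
    else if hr : ∃ a v, r = t ++ a :: v ∧ Good D n (t ++ [a]) then C hr.choose r
    else univ
  have hB : ∀ r, B r ∈ U := by
    intro r
    simp only [B]
    split_ifs with h1 h2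
    · exact h
    · exact hC _ (h2.choose_spec.choose_spec.2) _
    · exact Filter.univ_mem
  have hBt : B t = {a | Good D n (t ++ [a])} := by simp [B]
  have hBa : ∀ a v, Good D n (t ++ [a]) → B (t ++ a :: v) = C a (t ++ a :: v) := by
    intro a v ha
    have h1 : t ++ a :: v ≠ t := by simp
    have h2 : ∃ a' v', t ++ a :: v = t ++ a' :: v' ∧ Good D n (t ++ [a']) := ⟨a, v, rfl, ha⟩
    simp only [B]
    rw [if_neg h1, dif_pos h2]
    have h3 := h2.choose_spec.choose_spec.1
    have h4 : a = h2.choose := by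
      have := List.append_cancel_left h3
      exact (List.cons.inj this).1
    rw [← h4]
  refine ⟨B, hB, ?_⟩
  rintro (_ | ⟨a, v⟩) hl hok
  · simp at hl
  · have ha : Good D n (t ++ [a]) := by
      have h1 : a ∈ B t := hok.1
      rw [hBt] at h1
      exact h1
    have hsub : ∀ w, B (t ++ [a] ++ w) = C a (t ++ [a] ++ w) := by
      intro w
      have h1 := hBa a w ha
      rw [List.append_assoc]
      exact h1
    have h1 := hC' a ha v (by simpa using hl) (ok_mono v _ (fun w => (hsub w).subset) hok.2)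
    refine hD _ h1 _ ⟨fun w => ?_, [], ?_, trivial⟩
    · show B (t ++ a :: v ++ w) ⊆ C a (t ++ a :: v ++ w)
      have h2 : t ++ a :: v ++ w = t ++ [a] ++ (v ++ w) := by simp
      rw [h2, hsub]
    · show t ++ a :: v = t ++ [a] ++ v ++ []
      simp

/-- The strong Prikry property. -/
theorem strong_prikry (hU : Measures K U) {D : Set (Pri U)} (hD : ∀ p ∈ D, ∀ q ≤ p, q ∈ D)
    (p : Pri U) (hp : ∀ q ≤ p, ∃ r ≤ q, r ∈ D) : ∃ n, Good D n p.s := by
  classical
  by_contra hcon
  -- the nodes that are not good for any `n`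
  let bad : List K → Prop := fun t => ∀ n, ¬ Good D n t
  have hbad : bad p.s := fun n hn => hcon ⟨n, hn⟩
  have hstep : ∀ t, bad t → {a | bad (t ++ [a])} ∈ U := by
    intro t ht
    have h1 : ∀ n, {a | Good D n (t ++ [a])}ᶜ ∈ U := by
      intro n
      rw [Ultrafilter.compl_mem_iff_notMem]
      exact fun h => ht (n + 1) (good_of_many hD h)
    have h2 := hU.complete ℕ (fun n => {a | Good D n (t ++ [a])}ᶜ) (by
      rw [Cardinal.mk_nat]
      exact hU.uncountable) h1
    refine Filter.mem_of_superset h2 fun a ha n => ?_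
    exact mem_iInter.1 ha n
  let B : List K → Set K := fun t => if bad t then {a | bad (t ++ [a])} ∩ p.B t else p.B t
  have hB : ∀ t, B t ∈ U := by
    intro t
    simp only [B]
    split_ifs with h
    · exact Filter.inter_mem (hstep t h) (p.hB t)
    · exact p.hB t
  have hBp : ∀ t, B t ⊆ p.B t := by
    intro t
    simp only [B]
    split_ifs with h
    · exact inter_subset_right
    · exact Subset.rfl
  have hok : ∀ (u t : List K), bad t → Ok B t u → bad (t ++ u) := by
    intro u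
    induction u with
    | nil => intro t ht _; simpa using ht
    | cons a u ih =>
      intro t ht h
      have h1 : a ∈ B t := h.1
      simp only [B] at h1
      rw [if_pos ht] at h1
      have h2 := ih (t ++ [a]) h1.1 h.2
      rw [List.append_assoc] at h2
      exact h2
  obtain ⟨r, hr, hrD⟩ := hp ⟨p.s, B, hB⟩ ⟨fun v => hBp _, [], by simp, trivial⟩
  obtain ⟨h1, u, hu, hu'⟩ := hr
  have h2 : bad r.s := by
    rw [hu]
    exact hok u p.s hbad hu'
  refine h2 0 ⟨r.B, r.hB, ?_⟩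
  intro v hv _
  obtain rfl := List.length_eq_zero_iff.1 hv
  simpa using hrD

/-- The strong Prikry property for fewer than `#K` open dense sets at once. -/
theorem strong_prikry_fam (hU : Measures K U) {J : Type} (hJ : #J < #K) {D : J → Set (Pri U)}
    (hD : ∀ j, ∀ p ∈ D j, ∀ q ≤ p, q ∈ D j)
    (p : Pri U) (hp : ∀ j, ∀ q ≤ p, ∃ r ≤ q, r ∈ D j) :
    ∃ (n : J → ℕ) (r : Pri U), r ≤ p ∧ r.s = p.s ∧ ∀ j u, u.length = n j → Ok r.B p.s u →
      r.stem (p.s ++ u) ∈ D j := by
  choose n B hB h using fun j => strong_prikry hU (hD j) p (hp j)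
  have hC : ∀ t, (p.B t ∩ ⋂ j, B j t) ∈ U := fun t =>
    Filter.inter_mem (p.hB t) (hU.complete J (fun j => B j t) hJ fun j => hB j t)
  refine ⟨n, ⟨p.s, fun t => p.B t ∩ ⋂ j, B j t, hC⟩, ⟨fun v => inter_subset_left, [], by simp,
    trivial⟩, rfl, ?_⟩
  intro j u hu hok
  have hsub : ∀ t, (p.B t ∩ ⋂ j, B j t) ⊆ B j t := fun t =>
    inter_subset_right.trans (iInter_subset _ j)
  refine hD j _ (h j u hu (ok_mono u _ (fun v => hsub _) hok)) _ ⟨fun v => hsub _, [], ?_, trivial⟩
  simp [Pri.stem]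

/-! ### Collapses -/

/-- A condition forces that there is a function from a part of `X` onto `Y`. -/
def Collapses (P : Type) [Preorder P] (X Y : Type) : Prop :=
  ∃ (p : P) (S : X → Y → Set P), (∀ x y, ∀ q ∈ S x y, ∀ r ≤ q, r ∈ S x y) ∧
    (∀ x y y', y ≠ y' → ∀ q ≤ p, q ∈ S x y → q ∉ S x y') ∧
    ∀ y, ∀ q ≤ p, ∃ r ≤ q, ∃ x, r ∈ S x y

theorem Collapses.of_inj {P : Type} [Preorder P] {X Y Y' : Type} (h : Collapses P X Y)
    {f : Y' → Y} (hf : Function.Injective f) : Collapses P X Y' := by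
  obtain ⟨p, S, h1, h2, h3⟩ := h
  exact ⟨p, fun x y => S x (f y), fun x y => h1 x _, fun x y y' hne => h2 x _ _ fun h => hne (hf h),
    fun y => h3 _⟩

/-- In a countable chain condition forcing, an uncountable family has two compatible members. -/
theorem exists_compat {Q : Type} [Preorder Q] (hQ : Pool.Agent.W868.CCC Q) {J : Type}
    (hJ : ℵ₀ < #J) (q : J → Q) : ∃ i j, i ≠ j ∧ ∃ r, r ≤ q i ∧ r ≤ q j := by
  classical
  by_contra hcon
  push Not at hcon
  have hinj : Function.Injective q := by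
    intro i j hij
    by_contra hne
    exact hcon i j hne (q i) le_rfl (by rw [hij])
  have h1 := hQ (range q) (by
    rintro _ ⟨i, rfl⟩ _ ⟨j, rfl⟩ hne ⟨r, hr1, hr2⟩
    exact hcon i j (fun h => hne (by rw [h])) r hr1 hr2)
  have h2 : #J ≤ ℵ₀ := by
    rw [← Cardinal.mk_range_eq q hinj]
    exact Cardinal.mk_le_aleph0_iff.2 h1
  exact absurd hJ (not_lt.2 h2)

/-- A fibre of size greater than `ℵ₀`. -/
theorem exists_fibre {Y Z : Type} (c : Y → Z) (h : max #Z ℵ₀ < #Y) :
    ∃ z, ℵ₀ < #{y // c y = z} := by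
  by_contra hcon
  push Not at hcon
  have h1 : #Y = Cardinal.sum fun z => #{y // c y = z} := by
    rw [← Cardinal.mk_sigma]
    exact (Cardinal.mk_congr (Equiv.sigmaFiberEquiv c)).symm
  have h2 : #Y ≤ #Z * ℵ₀ := by
    rw [h1]
    refine (Cardinal.sum_le_sum _ _ hcon).trans ?_
    rw [Cardinal.sum_const, Cardinal.lift_id, Cardinal.lift_id]
  have h3 : #Z * ℵ₀ ≤ max #Z ℵ₀ := by
    refine (Cardinal.mul_le_max _ _).trans ?_
    simp
  exact absurd h (not_lt.2 (h2.trans h3))

theorem Measures.infinite (hU : Measures K U) : Infinite K := by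
  rw [Cardinal.infinite_iff]
  exact hU.uncountable.le

theorem two_power_lt (hU : Measures K U) {M : Type} (h : #M < #K) : (2 : Cardinal) ^ #M < #K := by
  classical
  by_contra hcon
  rw [not_lt] at hcon
  have h1 : #K ≤ #(M → Bool) := by
    rw [Cardinal.mk_arrow, Cardinal.mk_bool]
    simpa using hcon
  obtain ⟨e⟩ := Cardinal.le_def _ _ |>.1 h1
  have h2 : ∀ m, ∃ b, {k | e k m = b} ∈ U := by
    intro m
    by_cases h3 : {k | e k m = true} ∈ U
    · exact ⟨_, h3⟩
    · refine ⟨false, ?_⟩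
      rw [← Ultrafilter.compl_mem_iff_notMem] at h3
      convert h3 using 1
      ext k
      simp
  choose b hb using h2
  have h3 := hU.complete M (fun m => {k | e k m = b m}) h hb
  obtain ⟨k, hk⟩ := U.nonempty_of_mem h3
  have h4 : (⋂ m, {k | e k m = b m}) ⊆ {k} := by
    intro k' hk'
    apply e.injective
    funext m
    rw [mem_iInter] at hk hk'
    exact (hk' m).trans (hk m).symm
  exact hU.nonprincipal k (Filter.mem_of_superset h3 h4)

theorem no_collapse_aux (hU : Measures K U) {I X Y : Type}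
    (h : Collapses (Pri U × Coh I) X Y) (hY : #Y < #K) : #Y ≤ max #X ℵ₀ := by
  classical
  by_contra hlt
  rw [not_le] at hlt
  obtain ⟨⟨p₀, q₀⟩, S, h1, h2, h3⟩ := h
  let D : Y → Set (Pri U) := fun y => {p | ∃ x, ∃ q ≤ q₀, (p, q) ∈ S x y}
  obtain ⟨n, r, hr, hrs, hn⟩ := strong_prikry_fam hU hY (D := D) (by
    rintro y p ⟨x, q, hq, hpq⟩ p' hp'
    exact ⟨x, q, hq, h1 _ _ _ hpq _ ⟨hp', le_rfl⟩⟩) p₀ (by
    intro y q hq
    obtain ⟨r, hr, x, hx⟩ := h3 y (q, q₀) ⟨hq, le_rfl⟩
    exact ⟨r.1, hr.1, x, r.2, hr.2, hx⟩)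
  choose u hul huo using fun N => r.exists_ok N p₀.s
  choose x q hq hS using fun y => hn y (u (n y)) (hul _) (huo _)
  obtain ⟨⟨N, x₀⟩, hz⟩ := exists_fibre (fun y => (n y, x y)) (by
    refine lt_of_le_of_lt ?_ hlt
    rw [Cardinal.mk_prod, Cardinal.lift_id, Cardinal.lift_id, Cardinal.mk_nat]
    refine max_le ((Cardinal.mul_le_max _ _).trans ?_) (le_max_right _ _)
    simp only [max_le_iff, le_max_right, le_max_left, and_self])
  obtain ⟨⟨i, hi⟩, ⟨j, hj⟩, hne, t, ht1, ht2⟩ := exists_compat (Coh.ccc (I := I)) hz fun y => q y.1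
  have hne' : i ≠ j := fun h => hne (Subtype.ext h)
  obtain ⟨hi1, hi2⟩ := Prod.mk.inj hi
  obtain ⟨hj1, hj2⟩ := Prod.mk.inj hj
  have hle : r.stem (p₀.s ++ u N) ≤ p₀ := by
    refine le_trans ?_ hr
    rw [← hrs]
    exact Pri.stem_le (by rw [hrs]; exact huo N)
  have ei := hS i
  have ej := hS j
  rw [hi1, hi2] at ei
  rw [hj1, hj2] at ej
  exact h2 x₀ i j hne' (r.stem (p₀.s ++ u N), t) ⟨hle, ht1.trans (hq i)⟩
    (h1 _ _ _ ei _ ⟨le_rfl, ht1⟩) (h1 _ _ _ ej _ ⟨le_rfl, ht2⟩)

theorem no_collapse_aux2 (hU : Measures K U) {I X Y : Type}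
    (h : Collapses (Pri U × Coh I) X Y) (hX : #K ≤ #X) : #Y ≤ #X := by
  classical
  by_contra hlt
  rw [not_le] at hlt
  obtain ⟨⟨p₀, q₀⟩, S, h1, h2, h3⟩ := h
  choose r hr x hx using fun y => h3 y (p₀, q₀) le_rfl
  have := hU.infinite
  have hX0 : ℵ₀ ≤ #X := hU.uncountable.le.trans hX
  obtain ⟨⟨x₀, s₀⟩, hz⟩ := exists_fibre (fun y => (x y, (r y).1.s)) (by
    refine lt_of_le_of_lt ?_ hlt
    rw [Cardinal.mk_prod, Cardinal.lift_id, Cardinal.lift_id, Cardinal.mk_list_eq_mk,
      Cardinal.mul_eq_left hX0 hX (Cardinal.mk_ne_zero K)]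
    exact max_le le_rfl hX0)
  obtain ⟨⟨i, hi⟩, ⟨j, hj⟩, hne, t, ht1, ht2⟩ := exists_compat (Coh.ccc (I := I)) hz
    fun y => (r y.1).2
  have hne' : i ≠ j := fun h => hne (Subtype.ext h)
  obtain ⟨hi1, hi2⟩ := Prod.mk.inj hi
  obtain ⟨hj1, hj2⟩ := Prod.mk.inj hj
  let w : Pri U := ⟨s₀, fun t => (r i).1.B t ∩ (r j).1.B t, fun t =>
    Filter.inter_mem ((r i).1.hB t) ((r j).1.hB t)⟩
  have hwi : w ≤ (r i).1 := ⟨fun v => inter_subset_left, [], by simp [w, hi2], trivial⟩
  have hwj : w ≤ (r j).1 := ⟨fun v => inter_subset_right, [], by simp [w, hj2], trivial⟩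
  have ei := hx i
  have ej := hx j
  rw [hi1] at ei
  rw [hj1] at ej
  exact h2 x₀ i j hne' (w, t) ⟨hwi.trans (hr i).1, ht1.trans (hr i).2⟩
    (h1 _ _ _ ei _ ⟨hwi, ht1⟩) (h1 _ _ _ ej _ ⟨hwj, ht2⟩)

/-- The product of tree Prikry forcing and Cohen forcing collapses no cardinals. -/
theorem no_collapse (hU : Measures K U) {I X Y : Type}
    (h : Collapses (Pri U × Coh I) X Y) : #Y ≤ max #X ℵ₀ := by
  classical
  by_contra hlt
  rw [not_le] at hlt
  by_cases hc : max #X ℵ₀ < #K
  · have h1 : Order.succ (max #X ℵ₀) < #K := by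
      have h2 : #((max #X ℵ₀ : Cardinal.{0}).out) < #K := by rwa [Cardinal.mk_out]
      have h3 := two_power_lt hU h2
      rw [Cardinal.mk_out] at h3
      exact lt_of_le_of_lt (Order.succ_le_of_lt (Cardinal.cantor _)) h3
    have h2 : Order.succ (max #X ℵ₀) ≤ #Y := Order.succ_le_of_lt hlt
    have h3 : #((Order.succ (max #X ℵ₀) : Cardinal.{0}).out) ≤ #Y := by rwa [Cardinal.mk_out]
    obtain ⟨f⟩ := Cardinal.le_def _ _ |>.1 h3
    have h4 := no_collapse_aux hU (h.of_inj f.injective) (by rwa [Cardinal.mk_out])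
    rw [Cardinal.mk_out] at h4
    exact absurd (Order.lt_succ (max #X ℵ₀)) (not_lt.2 h4)
  · rw [not_lt] at hc
    have h1 : #K ≤ #X := by
      rcases le_max_iff.1 hc with h | h
      · exact h
      · exact absurd hU.uncountable (not_lt.2 h)
    have h2 := no_collapse_aux2 hU h h1
    exact absurd (lt_of_le_of_lt (le_max_left _ _) hlt) (not_lt.2 h2)

end Pool.Agent.W910.MR
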