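import Pool.Agent.W868.Fin
import Pool.Agent.W910.MR.Prikry

/-!
# Preservation of cardinals in the generic extension
-/

set_option autoImplicit false
set_option linter.unreachableTactic false
set_option linter.unusedTactic false
set_option linter.unusedSectionVars false

namespace Pool.Agent.W910.MR

open ZFSet (pair)
open Cardinal
open Pool.Agent.W868
open Pool.Agent.W868.PName

variable {P : Type} [Preorder P] [OrderTop P]

/-- A relation of the extension that is functional and onto gives a collapse. -/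
theorem collapses_of_rel (π : Pkg P) {A B R : ZFSet.{0}} (hA : A ∈ π.Z) (hB : B ∈ π.Z)
    (hR : R ∈ π.W) (hf : ∀ a ∈ π.hat A, ∀ b ∈ π.hat B, ∀ b' ∈ π.hat B,
      pair a b ∈ R → pair a b' ∈ R → b = b')
    (hc : ∀ b ∈ π.hat B, ∃ a ∈ π.hat A, pair a b ∈ R) : Collapses P (Ty A) (Ty B) := by
  classical
  obtain ⟨τ, hτ, rfl⟩ := hR
  set S : Set (PName P) := {τ, check A, check B} with hS
  have hτS : τ ∈ S := by simp [hS]
  have hAS : check A ∈ S := by simp [hS]
  have hBS : check B ∈ S := by simp [hS]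
  have hSπ : S ⊆ π.N := by
    rintro x (rfl | rfl | rfl)
    · exact hτ
    · exact hA
    · exact hB
  have hd : NDfn S fun π (_ : Fin 0 → ZFSet.{0}) =>
      (∀ a ∈ π.hat A, ∀ b ∈ π.hat B, ∀ b' ∈ π.hat B,
        pair a b ∈ π.val τ → pair a b' ∈ π.val τ → b = b') ∧
      ∀ b ∈ π.hat B, ∃ a ∈ π.hat A, pair a b ∈ π.val τ := by
    (repeat' first
      | assumption
      | exact NDfnF.proj _
      | exact NDfnF.val (by assumption)
      | exact NDfnF.hat (by assumption)
      | apply NDfn.not | apply NDfn.and | apply NDfn.or | apply NDfn.imp | apply NDfn.iff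
      | apply NDfn.bex | apply NDfn.ball | apply NDfn.ex | apply NDfn.all
      | apply NDfn.eq | apply NDfn.mem | apply NDfnF.pair)
  obtain ⟨k, hk⟩ := forcing_theorem hd π hSπ ⟨hf, hc⟩
  set p := π.g k with hp
  let D : ZFSet.{0} → ZFSet.{0} → P → Prop := fun a b q => ∀ π' : Pkg P,
    S ⊆ π'.N → check a ∈ π'.N → check b ∈ π'.N → (∃ m, π'.g m ≤ q) →
      pair (π'.hat a) (π'.hat b) ∈ π'.val τ
  refine ⟨p, fun a b => {q | D (el a) (el b) q}, ?_, ?_, ?_⟩
  · rintro a b q hq r hr π' h1 h2 h3 ⟨m, hm⟩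
    exact hq π' h1 h2 h3 ⟨m, hm.trans hr⟩
  · intro a b b' hne q hq h4 h5
    obtain ⟨π', h1, h2⟩ := exists_pkg' (S ∪ {check (el a), check (el b), check (el b')})
      ((Set.toFinite S).countable.union (Set.toFinite _).countable) q
    have hSπ' : S ⊆ π'.N := fun x hx => h1 (Or.inl hx)
    have haZ : el a ∈ π'.Z := h1 (Or.inr (by simp))
    have hbZ : el b ∈ π'.Z := h1 (Or.inr (by simp))
    have hbZ' : el b' ∈ π'.Z := h1 (Or.inr (by simp))
    have h3 := hk π' hSπ' ⟨0, by
      rw [h2]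
      exact hq⟩
    have h4 := h4 π' hSπ' haZ hbZ ⟨0, by rw [h2]⟩
    have h5 := h5 π' hSπ' haZ hbZ' ⟨0, by rw [h2]⟩
    have h6 := h3.1 _ ((π'.hat_mem_hat haZ (hSπ' hAS)).2 (el_mem a)) _
      ((π'.hat_mem_hat hbZ (hSπ' hBS)).2 (el_mem b)) _
      ((π'.hat_mem_hat hbZ' (hSπ' hBS)).2 (el_mem b')) h4 h5
    exact hne (el_injective ((π'.hat_inj hbZ hbZ').1 h6))
  · intro b q hq
    obtain ⟨π', h1, h2⟩ := exists_pkg' (S ∪ {check (el b)})
      ((Set.toFinite S).countable.union (Set.toFinite _).countable) q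
    have hSπ' : S ⊆ π'.N := fun x hx => h1 (Or.inl hx)
    have hbZ : el b ∈ π'.Z := h1 (Or.inr (by simp))
    have h3 := hk π' hSπ' ⟨0, by
      rw [h2]
      exact hq⟩
    obtain ⟨a', ha', h4⟩ := h3.2 (π'.hat (el b)) ((π'.hat_mem_hat hbZ (hSπ' hBS)).2 (el_mem b))
    obtain ⟨a, ha, haZ, rfl⟩ := π'.mem_hat.1 ha'
    obtain ⟨a, rfl⟩ := exists_el ha
    have hd2 : NDfn (S ∪ {check (el a), check (el b)}) fun π (_ : Fin 0 → ZFSet.{0}) =>
        pair (π.hat (el a)) (π.hat (el b)) ∈ π.val τ := by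
      have haS : check (el a) ∈ S ∪ {check (el a), check (el b)} := Or.inr (by simp)
      have hbS : check (el b) ∈ S ∪ {check (el a), check (el b)} := Or.inr (by simp)
      have hτS' : τ ∈ S ∪ {check (el a), check (el b)} := Or.inl hτS
      exact NDfn.mem ((NDfnF.hat haS).pair (NDfnF.hat hbS)) (NDfnF.val hτS')
    obtain ⟨m, hm⟩ := forcing_theorem hd2 π' (by
      rintro x (hx | rfl | rfl)
      · exact hSπ' hx
      · exact haZ
      · exact hbZ) h4
    refine ⟨π'.g m, ?_, a, ?_⟩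
    · rw [← h2]
      exact π'.g_anti (Nat.zero_le m)
    · intro π'' h5 h6 h7 h8
      refine hm π'' ?_ h8
      rintro x (hx | rfl | rfl)
      · exact h5 hx
      · exact h6
      · exact h7

/-- The forcing notion collapses no cardinals. -/
def Preserves (P : Type) [Preorder P] : Prop :=
  ∀ X Y : Type, Collapses P X Y → #Y ≤ max #X ℵ₀

theorem card_ty (A : ZFSet.{0}) : #(Ty A) = A.card := rfl

theorem card_hat_le (π : Pkg P) (b : ZFSet.{0}) : (π.hat b).card ≤ b.card := by
  refine (ZFSet.card_mono (y := im π.hat b) ?_).trans card_im_le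
  intro z hz
  obtain ⟨y, hy, -, rfl⟩ := π.mem_hat.1 hz
  exact mem_im.2 ⟨y, hy, rfl⟩

/-- An injection in the extension between sets of the ground model. -/
theorem card_le_of_inj_W (hP : Preserves P) (π : Pkg P) {b c : ZFSet.{0}} (hb : b ∈ π.Z)
    (hc : c ∈ π.Z) {f : ZFSet.{0}} (hf : f ∈ π.W) (hinj : IsInj (π.hat c) (π.hat b) f) :
    c.card ≤ b.card := by
  have hM := π.isZF_W
  have hB := hM.base
  have hbW := π.V_subset_W (π.of_hat_mem_V hb)
  have hcW := π.V_subset_W (π.of_hat_mem_V hc)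
  have hd : Dfn π.W π.W fun w : Fin 2 → ZFSet.{0} => pair (w 1) (w 0) ∈ f := by
    (repeat' first
    | assumption
    | exact DfnF.proj _
    | exact DfnF.const (by assumption)
    | exact DfnF.const' (by first | assumption | trivial) (by first | assumption | trivial)
    | exact Dfn.prop _
    | apply Dfn.not | apply Dfn.and | apply Dfn.or | apply Dfn.imp | apply Dfn.iff
    | apply hB.bex | apply hB.ball | apply Dfn.ex | apply Dfn.all
    | apply Dfn.eq | apply Dfn.mem | apply hB.pair')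
  obtain ⟨R, hR, -, hR'⟩ := hM.rel_mem hbW hcW (Q := fun a b => pair b a ∈ f) hd
  have h1 : Collapses P (Ty b) (Ty c) := by
    refine collapses_of_rel π hb hc hR ?_ ?_
    · intro a ha y hy y' hy' h2 h3
      exact hinj.2 y y' a ((hR' a y).1 h2).2.2 ((hR' a y').1 h3).2.2
    · intro y hy
      obtain ⟨n, hn, -⟩ := hinj.1.2 y hy
      have h3 := (ZFSet.pair_mem_prod.1 (hinj.1.1 hn)).2
      exact ⟨n, h3, (hR' n y).2 ⟨h3, hy, hn⟩⟩
  have h2 := hP _ _ h1
  rw [card_ty, card_ty] at h2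
  rcases le_max_iff.1 h2 with h3 | h3
  · exact h3
  · by_contra hlt
    rw [not_le] at hlt
    have h4 : b.card < ℵ₀ := hlt.trans_le h3
    obtain ⟨n, hn⟩ := Cardinal.lt_aleph0.1 h4
    have h5 : ((nat (n + 1)).card : Cardinal.{0}) ≤ c.card := by
      rw [card_nat]
      rw [hn] at hlt
      have := Order.succ_le_of_lt hlt
      simpa using this
    obtain ⟨e, -, he⟩ := π.exists_inj_V (π.nat_Z (n + 1)) hc (exists_isInj h5)
    have h6 := card_le_of_isInj he
    rw [π.hat_nat, card_nat] at h6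
    have h7 := card_le_of_isInj hinj
    have h8 := card_hat_le π b
    rw [hn] at h8
    have h9 := h6.trans (h7.trans h8)
    have h10 : n + 1 ≤ n := by exact_mod_cast h9
    omega

/-- The ground model and the extension have the same cardinals. -/
theorem isCard_iff (hP : Preserves P) (π : Pkg P) (κ : ZFSet.{0}) :
    IsCard π.V κ ↔ IsCard π.W κ := by
  constructor
  · rintro ⟨h1, h2, h3⟩
    refine ⟨π.V_subset_W h1, h2, ?_⟩
    rintro β hβ ⟨f, hf, hinj⟩
    obtain ⟨c, hc, rfl⟩ := h1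
    obtain ⟨b, hb, hbZ, rfl⟩ := π.mem_hat.1 hβ
    have h4 := card_le_of_inj_W hP π hbZ hc hf hinj
    obtain ⟨e, he, he'⟩ := π.exists_inj_V hc hbZ (exists_isInj h4)
    exact h3 _ hβ ⟨e, he, he'⟩
  · rintro ⟨h1, h2, h3⟩
    refine ⟨π.ord_V h2 h1, h2, ?_⟩
    rintro β hβ ⟨f, hf, hinj⟩
    exact h3 β hβ ⟨f, π.V_subset_W hf, hinj⟩

theorem isNextCard_iff (hP : Preserves P) (π : Pkg P) (μ κ : ZFSet.{0}) :
    IsNextCard π.V μ κ ↔ IsNextCard π.W μ κ := by
  simp only [IsNextCard, isCard_iff hP π]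

end Pool.Agent.W910.MR
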