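import Pool.Agent.W910.MR.Names

/-!
# The reals are in every weak model
-/

set_option autoImplicit false
set_option linter.unreachableTactic false
set_option linter.unusedTactic false
set_option linter.unusedSectionVars false

namespace Pool.Agent.W910.MR

open ZFSet (pair)
open Cardinal
open Pool.Agent.W868
open Pool.Agent.W868.PName

theorem IsWeakModel.base {M : Set ZFSet.{0}} (hM : IsWeakModel M) : IsBase M :=
  ⟨hM.trans, hM.pairing, hM.union⟩

theorem IsWeakModel.sep_mem {M : Set ZFSet.{0}} (hM : IsWeakModel M) {Q : ZFSet.{0} → Prop}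
    (h : Dfn M M fun w : Fin 1 → ZFSet.{0} => Q (w 0)) {x : ZFSet.{0}} (hx : x ∈ M) :
    ZFSet.sep Q x ∈ M := by
  obtain ⟨φ, h1, h2⟩ := h
  obtain ⟨y, hy, h3⟩ := hM.separation φ h1 x hx
  have h4 : y = ZFSet.sep Q x := by
    ext z
    rw [h3, ZFSet.mem_sep]
    refine and_congr_right fun hz => h2 ![z] fun i => ?_
    fin_cases i
    exact hM.trans _ hx z hz
  exact h4 ▸ hy

/-- A transitive set that contains the elements of a cardinal and their pairs. -/
noncomputable def tf (c : Cardinal.{0}) :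
    (Ty (Ca c) ⊕ (Ty (Ca c) × Ty (Ca c)) ⊕ (Ty (Ca c) × Ty (Ca c))) → ZFSet.{0}
  | .inl a => el a
  | .inr (.inl p) => {el p.1, el p.2}
  | .inr (.inr p) => pair (el p.1) (el p.2)

/-- A transitive set that contains the elements of a cardinal and their pairs. -/
noncomputable def T0 (c : Cardinal.{0}) : ZFSet.{0} := ZFSet.range (tf c)

theorem card_range_le {ι : Type} (f : ι → ZFSet.{0}) : (ZFSet.range f).card ≤ #ι := by
  have h := ZFSet.lift_card_range_le (f := f)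
  rwa [Cardinal.lift_id, Cardinal.lift_id] at h

theorem card_T0 {c : Cardinal.{0}} (hc : ℵ₀ ≤ c) : (T0 c).card ≤ c := by
  refine (card_range_le _).trans ?_
  simp only [Cardinal.mk_sum, Cardinal.mk_prod, Cardinal.lift_id, card_ty_Ca,
    Cardinal.mul_eq_self hc, Cardinal.add_eq_self hc]
  exact le_rfl

theorem pair_mem_T0 {c : Cardinal.{0}} {a b : ZFSet.{0}} (ha : a ∈ Ca c) (hb : b ∈ Ca c) :
    pair a b ∈ T0 c := by
  obtain ⟨i, rfl⟩ := exists_el ha
  obtain ⟨j, rfl⟩ := exists_el hb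
  exact ZFSet.mem_range.2 ⟨.inr (.inr (i, j)), rfl⟩

theorem upair_mem_T0 {c : Cardinal.{0}} {a b : ZFSet.{0}} (ha : a ∈ Ca c) (hb : b ∈ Ca c) :
    ({a, b} : ZFSet.{0}) ∈ T0 c := by
  obtain ⟨i, rfl⟩ := exists_el ha
  obtain ⟨j, rfl⟩ := exists_el hb
  exact ZFSet.mem_range.2 ⟨.inr (.inl (i, j)), rfl⟩

theorem Ca_sub_T0 {c : Cardinal.{0}} : Ca c ⊆ T0 c := by
  intro a ha
  obtain ⟨i, rfl⟩ := exists_el ha
  exact ZFSet.mem_range.2 ⟨.inl i, rfl⟩

theorem T0_trans {c : Cardinal.{0}} {y z : ZFSet.{0}} (hy : y ∈ T0 c) (hz : z ∈ y) :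
    z ∈ T0 c := by
  obtain ⟨t, rfl⟩ := ZFSet.mem_range.1 hy
  rcases t with i | ⟨i, j⟩ | ⟨i, j⟩
  · have h1 := (ord_Ca c).mem_trans hz (el_mem i)
    exact Ca_sub_T0 h1
  · have h1 : z ∈ ({el i, el j} : ZFSet.{0}) := hz
    rcases ZFSet.mem_pair.1 h1 with rfl | rfl
    · exact Ca_sub_T0 (el_mem i)
    · exact Ca_sub_T0 (el_mem j)
  · have h1 : z ∈ ({{el i}, {el i, el j}} : ZFSet.{0}) := hz
    rcases ZFSet.mem_pair.1 h1 with rfl | rfl
    · have h2 : ({el i} : ZFSet.{0}) = {el i, el i} := by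
        ext w
        simp
      rw [h2]
      exact upair_mem_T0 (el_mem i) (el_mem i)
    · exact upair_mem_T0 (el_mem i) (el_mem j)

variable {P : Type} [Preorder P] [OrderTop P]

/-- The real number of `x` is in every weak model. -/
theorem rr_adjoin (π : Pkg P) {c : Cardinal.{0}} (hc : ℵ₀ ≤ c) {A D x : ZFSet.{0}}
    (hcZ : Ca c ∈ π.Z) (hT : T0 c ∈ π.Z) (hA : A ⊆ π.hat (Ca c)) (hD : D ∈ π.V) (hx : x ∈ π.V) :
    rr A D x ∈ Adjoin (HPlus π.V (π.hat (Ca c))) A := by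
  intro M hM hH hAM
  have hV := π.isZF_V
  have hVB := hV.base
  have hMB := hM.base
  have hTt : ∀ y ∈ π.hat (T0 c), ∀ z ∈ y, z ∈ π.hat (T0 c) := by
    intro y hy z hz
    obtain ⟨y', hy', hyZ, rfl⟩ := π.mem_hat.1 hy
    obtain ⟨z', hz', hzZ, rfl⟩ := π.mem_hat.1 hz
    exact (π.hat_mem_hat hzZ hT).2 (T0_trans hy' hz')
  have hinj : ∀ e : ZFSet.{0}, e ∈ π.Z → ∃ f ∈ π.V,
      IsInj (π.hat (insert e (T0 c))) (π.hat (Ca c)) f := by
    intro e he
    refine π.exists_inj_V (π.insert_Z he hT) hcZ (exists_isInj ?_)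
    rw [card_Ca]
    have h1 : (insert e (T0 c) : ZFSet.{0}).card ≤ (T0 c).card + 1 := ZFSet.card_insert_le
    refine h1.trans ((add_le_add_left (card_T0 hc) 1).trans ?_)
    exact (Cardinal.add_one_eq hc).le
  -- the set from which the real number is computed
  have hE : ZFSet.sep (fun w => pair x w ∈ D) (π.hat (T0 c)) ∈ π.V := by
    refine hV.sep_mem (Q := fun w => pair x w ∈ D) ?_ (π.of_hat_mem_V hT)
    exact Dfn.mem (hVB.pair' (DfnF.const hx) (DfnF.proj 0)) (DfnF.const hD)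
  obtain ⟨e0, he0, hE'⟩ := hE
  have hEM : ZFSet.sep (fun w => pair x w ∈ D) (π.hat (T0 c)) ∈ M := by
    apply hH
    rw [← hE']
    obtain ⟨f, hf, hf'⟩ := hinj e0 he0
    refine ⟨π.hat (insert e0 (T0 c)), π.of_hat_mem_V (π.insert_Z he0 hT), ?_, ?_, f, hf, hf'⟩
    · rw [π.hat_insert he0]
      exact ZFSet.mem_insert _ _
    · rw [π.hat_insert he0]
      intro y hy z hz
      rcases ZFSet.mem_insert_iff.1 hy with rfl | hy
      · rw [hE', ZFSet.mem_sep] at hz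
        exact ZFSet.mem_insert_iff.2 (Or.inr hz.1)
      · exact ZFSet.mem_insert_iff.2 (Or.inr (hTt y hy z hz))
  have hω : ZFSet.omega ∈ M := by
    apply hH
    obtain ⟨f, hf, hf'⟩ := hinj ZFSet.omega π.omega_Z
    refine ⟨π.hat (insert ZFSet.omega (T0 c)), π.of_hat_mem_V (π.insert_Z π.omega_Z hT), ?_,
      ?_, f, hf, hf'⟩
    · rw [π.hat_insert π.omega_Z, π.hat_omega]
      exact ZFSet.mem_insert _ _
    · rw [π.hat_insert π.omega_Z, π.hat_omega]
      intro y hy z hz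
      rcases ZFSet.mem_insert_iff.1 hy with rfl | hy
      · refine ZFSet.mem_insert_iff.2 (Or.inr (π.hat_subset Ca_sub_T0 ?_))
        refine π.hat_subset (omega_subset_Ca hc) ?_
        rw [π.hat_omega]
        exact hz
      · exact ZFSet.mem_insert_iff.2 (Or.inr (hTt y hy z hz))
  have hfin : rr A D x = ZFSet.sep (fun k => ∃ γ ∈ A,
      pair k γ ∈ ZFSet.sep (fun w => pair x w ∈ D) (π.hat (T0 c))) ZFSet.omega := by
    ext k
    rw [rr, ZFSet.mem_sep, ZFSet.mem_sep]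
    refine and_congr_right fun hk => exists_congr fun γ => and_congr_right fun hγ => ?_
    rw [ZFSet.mem_sep]
    refine ⟨fun h => ⟨?_, h⟩, fun h => h.2⟩
    obtain ⟨n, rfl⟩ := mem_omega_iff.1 hk
    obtain ⟨g, hg, hgZ, rfl⟩ := π.mem_hat.1 (hA hγ)
    rw [← π.hat_nat n, ← π.hat_pair (π.nat_Z n) hgZ,
      π.hat_mem_hat (π.pair_mem_Z (π.nat_Z n) hgZ) hT]
    exact pair_mem_T0 (omega_subset_Ca hc hk) hg
  rw [hfin]
  refine hM.sep_mem (Q := fun k => ∃ γ ∈ A,
      pair k γ ∈ ZFSet.sep (fun w => pair x w ∈ D) (π.hat (T0 c))) ?_ hω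
  apply hMB.bex (DfnF.const hAM)
  exact Dfn.mem (hMB.pair' (DfnF.proj 1) (DfnF.proj 0)) (DfnF.const hEM)

end Pool.Agent.W910.MR
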